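import Pool.Agent.TH125.Gal.Final

/-!
# The whole orthogonal Lie algebra, from one stable space of partners
-/

open Finset Function

set_option linter.unusedSectionVars false

namespace Run7.h190.EV

open Pool.Agent.TH125.Gal

universe u v w x

variable {K : Type u} [Field K] [CharZero K] {T : Type v} [AddCommGroup T] [Module K T]
  {E : Type w} [AddCommGroup E] [Module K E] {S : Type} [Fintype S] [DecidableEq S]
  {G : Type x} [Group G] {B : T →ₗ[K] T →ₗ[K] K} {ρ : G →* (T →ₗ[K] T)} {σ : G →* (E →ₗ[K] E)}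

/-- The Lie algebra moves the vector `δ` into its partners. -/
def Moves (S : Type) [Fintype S] [DecidableEq S] (B : T →ₗ[K] T →ₗ[K] K)
    (ρ : G →* (T →ₗ[K] T)) (σ : G →* (E →ₗ[K] E)) (δ : T) : Prop :=
  ∀ A ∈ LL S B ρ σ, A δ ∈ partners S B ρ σ δ

section

variable (hsy : ∀ x y, B x y = B y x) {δ : T} (hq : B δ δ ≠ 0) (hm : Moves S B ρ σ δ)

include hsy hq hm in
/-- stability -/
theorem stable {A : T →ₗ[K] T} (hA : A ∈ LL S B ρ σ) {w : T}
    (hw : w ∈ partners S B ρ σ δ) : A w ∈ partners S B ρ σ δ := by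
  have h0 : wg B δ w ∈ LL S B ρ σ := hw
  have h1 := LL_bracket hA h0
  rw [wg_bracket hA.1] at h1
  have h2 := pair_mem hsy hq (hm A hA) hw
  have h3 := Submodule.sub_mem _ h1 h2
  rw [add_sub_cancel_left] at h3
  exact h3

theorem Moves.conj {μ : G → K} (hμ : ∀ g, μ g ≠ 0)
    (hB : ∀ g x y, B (ρ g x) (ρ g y) = μ g * B x y) (h : Moves S B ρ σ δ) (γ : G) :
    Moves S B ρ σ (ρ γ δ) := by
  intro A hA
  have h1 := h _ (LL_conj hB hA γ⁻¹)
  have h2 := partners_conj hμ hB γ h1
  rw [LinearMap.comp_apply, LinearMap.comp_apply, rho_inv, inv_inv] at h2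
  exact h2

variable {μ : G → K} (hμ : ∀ g, μ g ≠ 0) (hB : ∀ g x y, B (ρ g x) (ρ g y) = μ g * B x y)

include hsy hμ hB hq hm in
/-- the radicals are orthogonal -/
theorem rad_orth {γ γ' : G} {x y : T} (hx : x ∈ partners S B ρ σ (ρ γ δ))
    (hx' : ∀ z ∈ partners S B ρ σ (ρ γ δ), B x z = 0)
    (hy : y ∈ partners S B ρ σ (ρ γ' δ)) (hy' : ∀ z ∈ partners S B ρ σ (ρ γ' δ), B y z = 0) :
    B y x = 0 := by
  have hqγ : ∀ γ, B (ρ γ δ) (ρ γ δ) ≠ 0 := fun γ => by
    rw [hB]
    exact mul_ne_zero (hμ γ) hq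
  have hy0 : wg B y (ρ γ' δ) ∈ LL S B ρ σ := by
    rw [wg_neg_swap]
    exact Submodule.neg_mem _ hy
  have hz : wg B y (ρ γ' δ) x ∈ partners S B ρ σ (ρ γ δ) :=
    stable hsy (hqγ γ) (hm.conj hμ hB γ) hy0 hx
  have hzz : B (wg B y (ρ γ' δ) x) (wg B y (ρ γ' δ) x) = 0 := by
    have h1 := hy0.1 x (wg B y (ρ γ' δ) x)
    rw [hx' _ (stable hsy (hqγ γ) (hm.conj hμ hB γ) hy0 hz), add_zero] at h1
    exact h1
  have hδ : ρ γ' δ ∈ partners S B ρ σ (ρ γ' δ) := by
    show wg B (ρ γ' δ) (ρ γ' δ) ∈ LL S B ρ σ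
    rw [wg_self]
    exact Submodule.zero_mem _
  have h1 := hy' _ hy
  have h2 := hy' _ hδ
  simp only [wg_apply, map_sub, map_smul, LinearMap.sub_apply, LinearMap.smul_apply,
    smul_eq_mul, h1, h2, hsy (ρ γ' δ) y] at hzz
  have h3 : B y x * B y x * B (ρ γ' δ) (ρ γ' δ) = 0 := by linear_combination hzz
  rcases mul_eq_zero.1 h3 with h | h
  · rcases mul_eq_zero.1 h with h | h <;> exact h
  · exact absurd h (hqγ γ')

include hsy hμ hB hq hm in
theorem rad_zero (hSI : SI ρ) {γ : G} {x : T} (hx : x ∈ partners S B ρ σ (ρ γ δ))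
    (hx' : ∀ z ∈ partners S B ρ σ (ρ γ δ), B x z = 0) : x = 0 := by
  set P : Set T := {x | ∃ γ : G, x ∈ partners S B ρ σ (ρ γ δ) ∧
    ∀ z ∈ partners S B ρ σ (ρ γ δ), B x z = 0} with hP
  have h1 : ∀ g' ∈ (⊤ : Subgroup G), ∀ x ∈ Submodule.span K P, ρ g' x ∈ Submodule.span K P := by
    intro g' _ x hx
    induction hx using Submodule.span_induction with
    | mem x hx =>
      obtain ⟨γ, h1, h2⟩ := hx
      refine Submodule.subset_span ⟨g' * γ, ?_, fun z hz => ?_⟩
      · rw [rho_mul_apply]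
        exact partners_conj hμ hB g' h1
      · have h3 := partners_conj hμ hB g'⁻¹ hz
        rw [rho_mul_apply, rho_inv'] at h3
        have h4 := h2 _ h3
        have h5 := hB g' x (ρ g'⁻¹ z)
        rw [rho_inv, h4, mul_zero] at h5
        exact h5
    | zero => rw [map_zero]; exact Submodule.zero_mem _
    | add x y _ _ hx hy => rw [map_add]; exact Submodule.add_mem _ hx hy
    | smul a x _ hx => rw [map_smul]; exact Submodule.smul_mem _ a hx
  have h2 : ∀ x ∈ Submodule.span K P, ∀ y ∈ Submodule.span K P, B x y = 0 := by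
    intro x hx
    induction hx using Submodule.span_induction with
    | mem x hx =>
      intro y hy
      induction hy using Submodule.span_induction with
      | mem y hy =>
        obtain ⟨γ, h1, h2⟩ := hx
        obtain ⟨γ', h1', h2'⟩ := hy
        exact rad_orth hsy hq hm hμ hB h1' h2' h1 h2
      | zero => rw [map_zero]
      | add y y' _ _ hy hy' => rw [map_add, hy, hy', add_zero]
      | smul a y _ hy => rw [map_smul, hy, smul_zero]
    | zero => intro y _; rw [map_zero, LinearMap.zero_apply]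
    | add x x' _ _ hx hx' =>
      intro y hy
      rw [map_add, LinearMap.add_apply, hx y hy, hx' y hy, add_zero]
    | smul a x _ hx =>
      intro y hy
      rw [map_smul, LinearMap.smul_apply, hx y hy, smul_zero]
  have h3 : x ∈ Submodule.span K P := Submodule.subset_span ⟨γ, hx, hx'⟩
  rcases hSI ⊤ inferInstance _ h1 with h | h
  · rw [h, Submodule.mem_bot] at h3
    exact h3
  · exact absurd (h2 δ (by rw [h]; exact Submodule.mem_top) δ
      (by rw [h]; exact Submodule.mem_top)) hq

include hsy hμ hB hq hm in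
/-- **The orthogonal Lie algebra.** If the Lie algebra moves `δ` into its partners, and `δ` has a
partner which is not a multiple of `δ`, then it is the whole orthogonal Lie algebra. -/
theorem full_of_moves [Module.Finite K T] (hSI : SI ρ) {δ' : T} (hδ' : δ' ∈ partners S B ρ σ δ)
    (hne : ∀ c : K, δ' ≠ c • δ) (a b : T) : wg B a b ∈ LL S B ρ σ := by
  have hqγ : ∀ γ, B (ρ γ δ) (ρ γ δ) ≠ 0 := fun γ => by
    rw [hB]
    exact mul_ne_zero (hμ γ) hq
  have hδ : δ ∈ partners S B ρ σ δ := by
    show wg B δ δ ∈ LL S B ρ σ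
    rw [wg_self]
    exact Submodule.zero_mem _
  have step : ∀ γ : G, ∀ w' ∈ partners S B ρ σ (ρ γ δ), ∀ b ∈ partners S B ρ σ δ,
      B b w' ≠ 0 → ∀ a ∈ partners S B ρ σ δ, a ∈ partners S B ρ σ (ρ γ δ) := by
    intro γ w' hw' b hb hbw a ha
    have hb0 : b ≠ 0 := by
      rintro rfl
      rw [map_zero, LinearMap.zero_apply] at hbw
      exact hbw rfl
    obtain ⟨a0, ha0, ha0b⟩ : ∃ a0 ∈ partners S B ρ σ δ, ∀ c : K, a0 ≠ c • b := by
      by_contra hcon
      push Not at hcon
      obtain ⟨c, hc⟩ := hcon δ hδ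
      obtain ⟨c', hc'⟩ := hcon δ' hδ'
      have hc0 : c ≠ 0 := by
        rintro rfl
        rw [zero_smul] at hc
        rw [hc, map_zero] at hq
        exact hq rfl
      apply hne (c' * c⁻¹)
      rw [hc, smul_smul, mul_assoc, inv_mul_cancel₀ hc0, mul_one]
      exact hc'
    have hy1 : wg B a0 b w' ∈ partners S B ρ σ (ρ γ δ) :=
      stable hsy (hqγ γ) (hm.conj hμ hB γ) (pair_mem hsy hq ha0 hb) hw'
    have hy2 : wg B a0 b w' ∈ partners S B ρ σ δ := by
      rw [wg_apply]
      exact Submodule.sub_mem _ (Submodule.smul_mem _ _ ha0) (Submodule.smul_mem _ _ hb)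
    have hy0 : wg B a0 b w' ≠ 0 := by
      intro h
      rw [wg_apply, sub_eq_zero] at h
      apply ha0b ((B b w')⁻¹ * B a0 w')
      have h1 := congrArg (fun z => (B b w')⁻¹ • z) h
      simp only [smul_smul, inv_mul_cancel₀ hbw, one_smul] at h1
      exact h1
    obtain ⟨w'', hw'', hyw⟩ : ∃ w'' ∈ partners S B ρ σ (ρ γ δ), B (wg B a0 b w') w'' ≠ 0 := by
      by_contra hcon
      push Not at hcon
      exact hy0 (rad_zero hsy hq hm hμ hB hSI hy1 hcon)
    have h1 : wg B a (wg B a0 b w') w'' ∈ partners S B ρ σ (ρ γ δ) :=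
      stable hsy (hqγ γ) (hm.conj hμ hB γ) (pair_mem hsy hq ha hy2) hw''
    rw [wg_apply] at h1
    have h2 := Submodule.add_mem _ h1 (Submodule.smul_mem _ (B a w'') hy1)
    rw [sub_add_cancel] at h2
    have h3 := Submodule.smul_mem _ (B (wg B a0 b w') w'')⁻¹ h2
    rwa [smul_smul, inv_mul_cancel₀ hyw, one_smul] at h3
  have htop : partners S B ρ σ δ = ⊤ := by
    refine orbit_top hμ (fun x y h => by rw [hsy]; exact h) hB hSI hδ hδ hq fun γ => ?_
    by_contra hcon
    push Not at hcon
    obtain ⟨⟨x, hx, hx'⟩, y, hy, z, hz, hyz⟩ := hcon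
    apply hx'
    have h1 : B (ρ γ y) z = μ γ * B y (ρ γ⁻¹ z) := by rw [← hB, rho_inv]
    have h2 : ∀ a ∈ partners S B ρ σ δ, a ∈ partners S B ρ σ (ρ γ⁻¹ δ) := by
      refine step γ⁻¹ (ρ γ⁻¹ z) (partners_conj hμ hB γ⁻¹ hz) y hy ?_
      intro h
      rw [h, mul_zero] at h1
      exact hyz h1
    have h3 := partners_conj hμ hB γ (h2 x hx)
    rwa [rho_inv] at h3
  exact pair_mem hsy hq (by rw [htop]; exact Submodule.mem_top)
    (by rw [htop]; exact Submodule.mem_top)

end

section triple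

variable (hsy : ∀ x y, B x y = B y x)

include hsy in
/-- half of the step for a pair of orthogonal vectors -/
theorem pair_step {e f : T} (hef : B e f = 0) (h : wg B e f ∈ LL S B ρ σ)
    {A : T →ₗ[K] T} (hA : A ∈ LL S B ρ σ) :
    B e e • wg B f (A f) + B f f • wg B e (A e) ∈ LL S B ρ σ := by
  have h1 := LL_bracket hA h
  rw [wg_bracket hA.1] at h1
  have h2 := LL_bracket h1 h
  rw [wg_bracket h1.1] at h2
  have e1 : B e (A e) = 0 := by
    have h3 := hA.1 e e
    rw [hsy (A e) e] at h3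
    have h4 : (2 : K) * B e (A e) = 0 := by linear_combination h3
    exact (mul_eq_zero.1 h4).resolve_left two_ne_zero
  have e2 : B f (A f) = 0 := by
    have h3 := hA.1 f f
    rw [hsy (A f) f] at h3
    have h4 : (2 : K) * B f (A f) = 0 := by linear_combination h3
    exact (mul_eq_zero.1 h4).resolve_left two_ne_zero
  have e3 : B (A e) f = - B (A f) e := by
    have h3 := hA.1 e f
    rw [hsy e (A f)] at h3
    exact eq_neg_of_add_eq_zero_left h3
  have h5 : wg B ((wg B (A e) f + wg B e (A f)) e) f + wg B e ((wg B (A e) f + wg B e (A f)) f) =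
      (2 * B (A f) e) • wg B e f + (B e e • wg B f (A f) + B f f • wg B e (A e)) := by
    have hfe : B f e = 0 := by rw [hsy]; exact hef
    have c1 : (wg B (A e) f + wg B e (A f)) e = B (A f) e • e - B e e • A f := by
      rw [LinearMap.add_apply, wg_apply, wg_apply, hfe, hsy (A e) e, e1]
      module
    have c2 : (wg B (A e) f + wg B e (A f)) f = B f f • A e + B (A f) e • f := by
      rw [LinearMap.add_apply, wg_apply, wg_apply, hef, hsy (A f) f, e2, e3]
      module
    rw [c1, c2]
    apply LinearMap.ext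
    intro x
    simp only [wg_apply, LinearMap.add_apply, LinearMap.smul_apply, map_sub, map_add, map_smul,
      LinearMap.sub_apply, smul_eq_mul]
    module
  rw [h5] at h2
  have h6 := Submodule.sub_mem _ h2 (Submodule.smul_mem _ (2 * B (A f) e) h)
  rwa [add_sub_cancel_left] at h6

include hsy in
/-- **A nondegenerate triple.** -/
theorem moves_of_triple {e f g : T} (hef : B e f = 0) (heg : B e g = 0) (hfg : B f g = 0)
    (hf : B f f ≠ 0) (hg : B g g ≠ 0)
    (h1 : wg B e f ∈ LL S B ρ σ) (h2 : wg B e g ∈ LL S B ρ σ) (h3 : wg B f g ∈ LL S B ρ σ) :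
    Moves S B ρ σ e := by
  intro A hA
  have k1 := pair_step hsy hef h1 hA
  have k2 := pair_step hsy heg h2 hA
  have k3 := pair_step hsy hfg h3 hA
  have k4 := Submodule.sub_mem _ (Submodule.add_mem _ (Submodule.smul_mem _ (B g g) k1)
    (Submodule.smul_mem _ (B f f) k2)) (Submodule.smul_mem _ (B e e) k3)
  have k5 : B g g • (B e e • wg B f (A f) + B f f • wg B e (A e)) +
      B f f • (B e e • wg B g (A g) + B g g • wg B e (A e)) -
      B e e • (B f f • wg B g (A g) + B g g • wg B f (A f)) =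
      (2 * (B f f * B g g)) • wg B e (A e) := by
    module
  rw [k5] at k4
  have k6 := Submodule.smul_mem _ (2 * (B f f * B g g))⁻¹ k4
  rwa [smul_smul, inv_mul_cancel₀ (mul_ne_zero two_ne_zero (mul_ne_zero hf hg)), one_smul] at k6

include hsy in
/-- **The orthogonal Lie algebra from a nondegenerate triple.** -/
theorem full_of_triple [Module.Finite K T] {μ : G → K} (hμ : ∀ g, μ g ≠ 0)
    (hB : ∀ g x y, B (ρ g x) (ρ g y) = μ g * B x y) (hSI : SI ρ)
    {e f g : T} (hef : B e f = 0) (heg : B e g = 0) (hfg : B f g = 0)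
    (he : B e e ≠ 0) (hf : B f f ≠ 0) (hg : B g g ≠ 0)
    (h1 : wg B e f ∈ LL S B ρ σ) (h2 : wg B e g ∈ LL S B ρ σ) (h3 : wg B f g ∈ LL S B ρ σ)
    (a b : T) : wg B a b ∈ LL S B ρ σ := by
  refine full_of_moves hsy he (moves_of_triple hsy hef heg hfg hf hg h1 h2 h3) hμ hB hSI
    (δ' := f) h1 (fun c hc => ?_) a b
  have h4 : B e f = c * B e e := by
    conv_lhs => rw [hc]
    rw [map_smul, smul_eq_mul]
  rw [hef] at h4
  have h5 : c = 0 := (mul_eq_zero.1 h4.symm).resolve_right he
  rw [h5, zero_smul] at hc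
  rw [hc, map_zero] at hf
  exact hf rfl

include hsy in
/-- **The orthogonal Lie algebra from an operator of rank two.** -/
theorem full_of_plane [Module.Finite K T] {μ : G → K} (hμ : ∀ g, μ g ≠ 0)
    (hB : ∀ g x y, B (ρ g x) (ρ g y) = μ g * B x y) (hSI : SI ρ)
    (hnd : ∀ x, (∀ y, B x y = 0) → x = 0)
    {p w : T} (hp : p ≠ 0) (hpp : B p p = 0) (hpw : B p w = 0) (hw : B w w ≠ 0)
    (h : wg B p w ∈ LL S B ρ σ) (a b : T) : wg B a b ∈ LL S B ρ σ := by
  -- a translate which is not orthogonal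
  obtain ⟨γ, hγ⟩ : ∃ γ, B p (ρ γ p) ≠ 0 := by
    by_contra hcon
    push Not at hcon
    apply hp
    apply hnd
    intro y
    have hst : ∀ g ∈ (⊤ : Subgroup G), ∀ x ∈ Submodule.span K (Set.range fun γ => ρ γ p),
        ρ g x ∈ Submodule.span K (Set.range fun γ => ρ γ p) := by
      intro g _ x hx
      induction hx using Submodule.span_induction with
      | mem x hx =>
        obtain ⟨γ, rfl⟩ := hx
        exact Submodule.subset_span ⟨g * γ, rho_mul_apply ρ g γ p⟩
      | zero => rw [map_zero]; exact Submodule.zero_mem _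
      | add x y _ _ hx hy => rw [map_add]; exact Submodule.add_mem _ hx hy
      | smul a x _ hx => rw [map_smul]; exact Submodule.smul_mem _ a hx
    have hspan : Submodule.span K (Set.range fun γ => ρ γ p) = ⊤ := by
      rcases hSI ⊤ inferInstance _ hst with h | h
      · exfalso
        apply hp
        have h1 : ρ 1 p ∈ Submodule.span K (Set.range fun γ => ρ γ p) :=
          Submodule.subset_span ⟨1, rfl⟩
        rw [h, Submodule.mem_bot, map_one] at h1
        exact h1
      · exact h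
    have hy : y ∈ Submodule.span K (Set.range fun γ => ρ γ p) := by
      rw [hspan]; exact Submodule.mem_top
    induction hy using Submodule.span_induction with
    | mem y hy =>
      obtain ⟨γ, rfl⟩ := hy
      exact hcon γ
    | zero => rw [map_zero]
    | add x y _ _ hx hy => rw [map_add, hx, hy, add_zero]
    | smul a x _ hx => rw [map_smul, hx, smul_zero]
  have h' : wg B (ρ γ p) (ρ γ w) ∈ LL S B ρ σ := wg_conj hμ hB γ h
  have hpp' : B (ρ γ p) (ρ γ p) = 0 := by rw [hB, hpp, mul_zero]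
  have hpw' : B (ρ γ p) (ρ γ w) = 0 := by rw [hB, hpw, mul_zero]
  have hw' : B (ρ γ w) (ρ γ w) ≠ 0 := by rw [hB]; exact mul_ne_zero (hμ γ) hw
  set p' := ρ γ p with hp'
  set w' := ρ γ w with hw''
  -- the key computation
  have key : ∀ p w p' w' : T, B p p = 0 → B p w = 0 → B p' p' = 0 → B p' w' = 0 → B w w ≠ 0 →
      wg B p w ∈ LL S B ρ σ → wg B p' w' ∈ LL S B ρ σ →
      wg B p (B p p' • w' - B p w' • p') ∈ LL S B ρ σ := by
    intro p w p' w' hpp hpw hpp' hpw' hw h h'
    have hwp : B w p = 0 := by rw [hsy]; exact hpw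
    have k1 := LL_bracket h h'
    rw [wg_bracket h.1] at k1
    have k2 := LL_bracket h k1
    rw [LinearMap.comp_add, LinearMap.add_comp, add_sub_add_comm, wg_bracket h.1,
      wg_bracket h.1] at k2
    have e1 : ∀ x, wg B p w x = B w x • p - B p x • w := fun x => rfl
    have e2 : ∀ x, wg B p w (wg B p w x) = (-(B p x * B w w)) • p := by
      intro x
      rw [e1 x, map_sub, map_smul, map_smul, e1 p, e1 w, hpp, hpw, hwp]
      module
    rw [e2, e2] at k2
    have k3 : (wg B ((-(B p p' * B w w)) • p) w' + wg B (wg B p w p') (wg B p w w')) +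
        (wg B (wg B p w p') (wg B p w w') + wg B p' ((-(B p w' * B w w)) • p)) =
        (-(B w w)) • wg B p (B p p' • w' - B p w' • p') +
        (2 * (B w w' * B p p' - B w p' * B p w')) • wg B p w := by
      rw [e1, e1]
      apply LinearMap.ext
      intro x
      simp only [wg_apply, LinearMap.add_apply, LinearMap.smul_apply, map_sub, map_smul,
        LinearMap.sub_apply, smul_eq_mul]
      module
    rw [k3] at k2
    have k4 := Submodule.sub_mem _ k2 (Submodule.smul_mem _
      (2 * (B w w' * B p p' - B w p' * B p w')) h)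
    rw [add_sub_cancel_right] at k4
    have k5 := Submodule.smul_mem _ (-(B w w))⁻¹ k4
    rwa [smul_smul, inv_mul_cancel₀ (neg_ne_zero.2 hw), one_smul] at k5
  have k1 := key p' w' p w hpp' hpw' hpp hpw hw' h' h
  have hc : B p' p ≠ 0 := by rw [hsy]; exact hγ
  -- the vector orthogonal to both
  set w₀ := w - (B p' w / B p' p) • p with hw₀
  have m1 : wg B p' w₀ ∈ LL S B ρ σ := by
    have k2 := Submodule.smul_mem _ (B p' p)⁻¹ k1
    rw [← wg_smul_right, smul_sub, smul_smul, smul_smul, inv_mul_cancel₀ hc, one_smul] at k2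
    rw [hw₀, div_eq_inv_mul]
    exact k2
  have m2 : wg B p w₀ ∈ LL S B ρ σ := by
    have k2 : wg B p w₀ = wg B p w := by
      rw [hw₀]
      apply LinearMap.ext
      intro x
      simp only [wg_apply, map_sub, map_smul, LinearMap.sub_apply, LinearMap.smul_apply,
        smul_eq_mul]
      module
    rw [k2]
    exact h
  have o1 : B p' w₀ = 0 := by
    rw [hw₀, map_sub, map_smul, smul_eq_mul, div_mul_cancel₀ _ hc, sub_self]
  have o2 : B p w₀ = 0 := by
    rw [hw₀, map_sub, map_smul, smul_eq_mul, hpw, hpp, mul_zero, sub_self]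
  have o3 : B w₀ w₀ = B w w := by
    rw [hw₀]
    simp only [map_sub, map_smul, LinearMap.sub_apply, LinearMap.smul_apply, smul_eq_mul, hpp,
      hpw, hsy w p]
    ring
  -- the triple
  have hq0 : B w₀ w₀ ≠ 0 := by rw [o3]; exact hw
  have n1 : wg B w₀ (p + p') ∈ LL S B ρ σ := by
    rw [wg_neg_swap, wg_add_left]
    exact Submodule.neg_mem _ (Submodule.add_mem _ m2 m1)
  have n2 : wg B w₀ (p - p') ∈ LL S B ρ σ := by
    rw [wg_neg_swap, sub_eq_add_neg, wg_add_left, ← neg_one_smul K p', wg_smul_left, neg_one_smul]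
    exact Submodule.neg_mem _ (Submodule.add_mem _ m2 (Submodule.neg_mem _ m1))
  have n3 : wg B (p + p') (p - p') ∈ LL S B ρ σ := pair_mem hsy hq0 n1 n2
  have s1 : B w₀ p = 0 := by rw [hsy]; exact o2
  have s2 : B w₀ p' = 0 := by rw [hsy]; exact o1
  refine full_of_triple hsy hμ hB hSI (e := w₀) (f := p + p') (g := p - p') ?_ ?_ ?_ hq0 ?_ ?_
    n1 n2 n3 a b
  · rw [map_add, s1, s2, add_zero]
  · rw [map_sub, s1, s2, sub_zero]
  · simp only [map_add, map_sub, LinearMap.add_apply, hpp, hpp', hsy p' p]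
    ring
  · have : B (p + p') (p + p') = 2 * B p' p := by
      simp only [map_add, LinearMap.add_apply, hpp, hpp', hsy p p']
      ring
    rw [this]
    exact mul_ne_zero two_ne_zero hc
  · have : B (p - p') (p - p') = -(2 * B p' p) := by
      simp only [map_sub, LinearMap.sub_apply, hpp, hpp', hsy p p']
      ring
    rw [this]
    exact neg_ne_zero.2 (mul_ne_zero two_ne_zero hc)

end triple

end Run7.h190.EV
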