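import Mathlib
import Pool.Agent.V11219.IsoFull
import Pool.Agent.TH118.SC.Ann
import Pool.Agent.Run7.h190.EV.Full

/-!
# Elements of finite order with a simple isolated eigenvalue: the orthogonal Lie algebra
-/

set_option linter.unusedSectionVars false

namespace Run7.h190.EV

open Module Finset Function Pool.Agent.TH125.Gal Pool.Agent.TH118.IS Pool.Agent.TH118.SG
open Pool.Agent.H204R3.SP Pool.Agent.H204R3.GP Pool.Agent.W522.U Pool.Agent.TH118.CU
open Pool.Agent.TH118.CR (avg scalar_of_vector)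
open Pool.Agent.V11219.IsoF (EigIn LL_of_Lnu')

variable {K : Type} [Field K] [CharZero K] [IsAlgClosed K] {T : Type} [AddCommGroup T]
  [Module K T] [FiniteDimensional K T] {E : Type} [AddCommGroup E] [Module K E]
  [FiniteDimensional K E] {S : Type} [Fintype S] [DecidableEq S] {G : Type} [Group G]
  {B : T →ₗ[K] T →ₗ[K] K} {ρ : G →* (T →ₗ[K] T)} {σ : G →* (E →ₗ[K] E)} {χ : G →* K}
  {γ : G} {k : ℕ}

/-- The components for the conjugation by an element of finite order. -/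
theorem LL_comp (hB : ∀ g x y, B (ρ g x) (ρ g y) = χ g * B x y) (hk : 0 < k)
    (hγ : ρ γ ^ k = 1) {A : End K T} (hA : A ∈ LL S B ρ σ) :
    ∃ f : K →₀ End K T, (∀ ν, f ν ∈ Lnu (R := ρ) (LL S B ρ σ) γ ν) ∧
      (f.sum fun _ x => x) = A := by
  have hgk : ρ (γ ^ k) = 1 := by rw [map_pow, hγ]
  have hgk' : ρ (γ ^ k)⁻¹ = 1 := by
    have h1 : ρ (γ ^ k) * ρ (γ ^ k)⁻¹ = 1 := by rw [← map_mul, mul_inv_cancel, map_one]
    rwa [hgk, one_mul] at h1
  obtain ⟨f, hf, hfs⟩ := exists_comp (K := K) (X := T →ₗ[K] T) (R := Representation.linHom ρ ρ)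
    (γ := γ) (U := (LL S B ρ σ : Submodule K (T →ₗ[K] T))) hk (by
      rw [← map_pow]
      apply LinearMap.ext
      intro Y
      rw [Representation.linHom_apply, hgk, hgk']
      rfl) (fun Y hY => by
      rw [Representation.linHom_apply]
      exact LL_conj (μ := χ) hB hY γ) hA
  refine ⟨f, fun ν => ?_, hfs⟩
  obtain ⟨h1, h2⟩ := mem_eig.1 (hf ν)
  refine ⟨h1, fun u => ?_⟩
  rw [Representation.linHom_apply] at h2
  have h3 := congrArg (fun q : T →ₗ[K] T => q (ρ γ u)) h2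
  simp only [LinearMap.comp_apply, LinearMap.smul_apply] at h3
  rwa [Pool.Agent.TH125.Gal.rho_inv'] at h3

/-- The quotient `β / α` is isolated. -/
def Iso (ρ : G →* (T →ₗ[K] T)) (γ : G) (α β : K) : Prop :=
  ∀ α', eig (X := T) ρ γ ⊤ α' ≠ ⊥ → eig (X := T) ρ γ ⊤ (α' * (β * α⁻¹)) ≠ ⊥ →
    α' = α ∨ α' * β = 1 ∨
      (finrank K (eig (X := T) ρ γ ⊤ α') = 1 ∧ α' * (α' * (β * α⁻¹)) = 1)

section

variable (hsy : ∀ x y, B x y = B y x) (hnd : ∀ u, (∀ v, B u v = 0) → u = 0)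
  (hB : ∀ g x y, B (ρ g x) (ρ g y) = χ g * B x y) (hχ : χ γ = 1) (hk : 0 < k)
  (hγ : ρ γ ^ k = 1)

include hB hχ in
theorem orth {α β : K} (h : α * β ≠ 1) {u v : T} (hu : u ∈ eig (X := T) ρ γ ⊤ α)
    (hv : v ∈ eig (X := T) ρ γ ⊤ β) : B u v = 0 :=
  pair_zero (χ := χ) hB (by rw [hχ]; exact h) hu hv

include hnd hB hχ hk hγ in
theorem zero_dual {α : K} {u : T} (hu : u ∈ eig (X := T) ρ γ ⊤ α)
    (h : ∀ β, α * β = 1 → ∀ w ∈ eig (X := T) ρ γ ⊤ β, B u w = 0) : u = 0 := by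
  refine zero_of_dual (χ := χ) hB hk hγ (fun u _ => Submodule.mem_top)
    (fun u _ h => hnd u fun v => h v Submodule.mem_top) hu fun β hβ w hw => ?_
  rw [hχ] at hβ
  exact h β hβ w hw

include hnd hB hχ hk hγ in
theorem dim_dual {α : K} (hα : α ≠ 0) :
    finrank K (eig (X := T) ρ γ ⊤ α⁻¹) = finrank K (eig (X := T) ρ γ ⊤ α) := by
  have h2 := finrank_dual (R := ρ) (χ := χ) hB hk hγ (U := ⊤) (fun u _ => Submodule.mem_top)
    (fun u _ h => hnd u fun v => h v Submodule.mem_top) hα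
  rwa [hχ, one_mul] at h2

theorem span_one {U : Submodule K T} (h : finrank K U = 1) {e : T} (he : e ∈ U) (he0 : e ≠ 0)
    {v : T} (hv : v ∈ U) : ∃ c : K, v = c • e := by
  obtain ⟨c, hc⟩ := (finrank_eq_one_iff_of_nonzero' (⟨e, he⟩ : U)
    (fun h => he0 (congrArg Subtype.val h))).1 h ⟨v, hv⟩
  exact ⟨c, (congrArg Subtype.val hc).symm⟩

include hnd hB hχ hk hγ in
theorem Iso.dual {α β : K} (hα : α ≠ 0) (hβ : β ≠ 0) (h : Iso (ρ := ρ) γ α β⁻¹) :
    Iso (ρ := ρ) γ α⁻¹ β := by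
  intro α' h1 h2
  have hα'0 : α' ≠ 0 := eig_ne h1
  rw [inv_inv] at h2 ⊢
  have e1 : α' * (β * α) * (β⁻¹ * α⁻¹) = α' := by field_simp
  rcases h (α' * (β * α)) h2 (by rwa [e1]) with h3 | h3 | ⟨h3, h4⟩
  · right; left
    have h5 : α * (α' * β - 1) = 0 := by linear_combination h3
    exact sub_eq_zero.1 ((mul_eq_zero.1 h5).resolve_left hα)
  · left
    have h5 : α' * α = 1 := by
      rw [← h3]
      field_simp
    exact eq_inv_of_mul_eq_one_left h5
  · right; right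
    rw [e1] at h4
    have h5 : α' * (β * α) = α'⁻¹ := eq_inv_of_mul_eq_one_left h4
    rw [h5, dim_dual hnd hB hχ hk hγ hα'0] at h3
    refine ⟨h3, ?_⟩
    rw [h5, mul_inv_cancel₀ hα'0]

include hsy hnd hB hχ hk hγ in
/-- **The elements of rank two.** -/
theorem rank_two {α β : K} {p p' : T} (hp : p ∈ eig (X := T) ρ γ ⊤ α)
    (hp' : p' ∈ eig (X := T) ρ γ ⊤ α⁻¹) (h1 : finrank K (eig (X := T) ρ γ ⊤ α) = 1)
    (hpp : B p' p ≠ 0) (hβα : β ≠ α) (hβα' : β * α ≠ 1) (hβ0 : β ≠ 0)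
    (hiso : Iso (ρ := ρ) γ α β)
    {N : End K T} (hN : N ∈ Lnu (R := ρ) (LL S B ρ σ) γ (β * α⁻¹)) :
    B p' p • N = wg B (N p) p' := by
  have hp0 : p ≠ 0 := by
    rintro rfl
    exact hpp (map_zero _)
  have hp'0 : p' ≠ 0 := by
    rintro rfl
    rw [map_zero, LinearMap.zero_apply] at hpp
    exact hpp rfl
  have hα0 : α ≠ 0 := eig_ne (Submodule.ne_bot_iff _ |>.2 ⟨p, hp, hp0⟩)
  have h1' : finrank K (eig (X := T) ρ γ ⊤ α⁻¹) = 1 := by
    rw [dim_dual hnd hB hχ hk hγ hα0, h1]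
  have hNp : N p ∈ eig (X := T) ρ γ ⊤ β := by
    have h2 := Lnu_maps hN hp
    rwa [show α * (β * α⁻¹) = β by field_simp] at h2
  have hskew : ∀ x y, B (N x) y + B x (N y) = 0 := hN.1.1
  -- on the eigenvectors
  have key : ∀ α' x, x ∈ eig (X := T) ρ γ ⊤ α' → B p' p • N x = wg B (N p) p' x := by
    intro α' x hx
    by_cases hx0 : x = 0
    · rw [hx0, map_zero, map_zero, smul_zero]
    have hα' : eig (X := T) ρ γ ⊤ α' ≠ ⊥ := Submodule.ne_bot_iff _ |>.2 ⟨x, hx, hx0⟩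
    rw [wg_apply]
    by_cases h2 : α' = α
    · subst h2
      obtain ⟨c, rfl⟩ := span_one h1 hp hp0 hx
      have h3 : B (N p) (c • p) = 0 := by
        rw [map_smul, orth hB hχ hβα' hNp hp, smul_zero]
      rw [h3, zero_smul, sub_zero, map_smul, map_smul, smul_eq_mul, smul_smul, mul_comm c]
    have h4 : B p' x = 0 := by
      refine orth hB hχ (fun h => h2 ?_) hp' hx
      rw [← mul_one α, ← h, mul_inv_cancel_left₀ hα0]
    rw [h4, zero_smul, zero_sub]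
    by_cases h3 : α' * β = 1
    · have h5 : N x ∈ eig (X := T) ρ γ ⊤ α⁻¹ := by
        have h6 := Lnu_maps hN hx
        rwa [← mul_assoc, h3, one_mul] at h6
      obtain ⟨d, hd⟩ := span_one h1' hp' hp'0 h5
      have h6 := hskew x p
      rw [hd, map_smul, LinearMap.smul_apply, smul_eq_mul, hsy x (N p)] at h6
      have h7 : B (N p) x = -(d * B p' p) := by linear_combination h6
      rw [hd, h7, neg_smul, neg_neg, smul_smul, mul_comm]
    · have h5 : B (N p) x = 0 := orth hB hχ (fun h => h3 (by rw [mul_comm]; exact h)) hNp hx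
      rw [h5, zero_smul, neg_zero]
      have h6 := Lnu_maps hN hx
      suffices h7 : N x = 0 by rw [h7, smul_zero]
      by_contra h7
      have h8 : eig (X := T) ρ γ ⊤ (α' * (β * α⁻¹)) ≠ ⊥ :=
        Submodule.ne_bot_iff _ |>.2 ⟨_, h6, h7⟩
      rcases hiso α' hα' h8 with h9 | h9 | ⟨h9, h10⟩
      · exact h2 h9
      · exact h3 h9
      · apply h7
        refine zero_dual hnd hB hχ hk hγ h6 fun β' hβ' w hw => ?_
        have h11 : β' = α' := by
          have h12 : α' * (β * α⁻¹) * (β' - α') = 0 := by linear_combination hβ' - h10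
          exact sub_eq_zero.1 ((mul_eq_zero.1 h12).resolve_left (eig_ne h8))
        subst h11
        obtain ⟨c, rfl⟩ := span_one h9 hx hx0 hw
        have h12 := hskew x x
        rw [hsy x (N x)] at h12
        have h13 : (2 : K) * B (N x) x = 0 := by linear_combination h12
        rw [map_smul, (mul_eq_zero.1 h13).resolve_left two_ne_zero, smul_zero]
  apply LinearMap.ext
  intro x
  obtain ⟨f, hf, hfs⟩ := exists_comp (R := ρ) (γ := γ) (U := (⊤ : Submodule K T)) hk hγ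
    (fun u _ => Submodule.mem_top) (Submodule.mem_top (x := x))
  rw [← hfs, Finsupp.sum, map_sum, map_sum]
  refine Finset.sum_congr rfl fun α' _ => ?_
  rw [LinearMap.smul_apply]
  exact key α' _ (hf α')

include hsy hnd hB hχ hk hγ in
/-- **The three types of homogeneous elements.** -/
theorem types {α : K} {p p' : T} (hp : p ∈ eig (X := T) ρ γ ⊤ α)
    (hp' : p' ∈ eig (X := T) ρ γ ⊤ α⁻¹) (h1 : finrank K (eig (X := T) ρ γ ⊤ α) = 1)
    (hpp : B p' p ≠ 0)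
    (hiso : ∀ β, eig (X := T) ρ γ ⊤ β ≠ ⊥ → β ≠ α → β * α ≠ 1 → Iso (ρ := ρ) γ α β)
    {ν : K} {N : End K T} (hN : N ∈ Lnu (R := ρ) (LL S B ρ σ) γ ν) :
    ((∃ c : K, N p = c • p) ∧ ∃ c : K, N p' = c • p') ∨
    (∃ w, B p w = 0 ∧ B p' w = 0 ∧ N = wg B w p') ∨
    (∃ w, B p w = 0 ∧ B p' w = 0 ∧ N = wg B w p) := by
  have hp0 : p ≠ 0 := by
    rintro rfl
    exact hpp (map_zero _)
  have hp'0 : p' ≠ 0 := by
    rintro rfl
    rw [map_zero, LinearMap.zero_apply] at hpp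
    exact hpp rfl
  have hα0 : α ≠ 0 := eig_ne (Submodule.ne_bot_iff _ |>.2 ⟨p, hp, hp0⟩)
  have h1' : finrank K (eig (X := T) ρ γ ⊤ α⁻¹) = 1 := by
    rw [dim_dual hnd hB hχ hk hγ hα0, h1]
  have hskew : ∀ x y, B (N x) y + B x (N y) = 0 := hN.1.1
  have hsk : ∀ x, B (N x) x = 0 := by
    intro x
    have h12 := hskew x x
    rw [hsy x (N x)] at h12
    have h13 : (2 : K) * B (N x) x = 0 := by linear_combination h12
    exact (mul_eq_zero.1 h13).resolve_left two_ne_zero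
  have main : ∀ (α : K) (p p' : T), p ∈ eig (X := T) ρ γ ⊤ α → p' ∈ eig (X := T) ρ γ ⊤ α⁻¹ →
      finrank K (eig (X := T) ρ γ ⊤ α) = 1 → B p' p ≠ 0 → α ≠ 0 →
      (∀ β, eig (X := T) ρ γ ⊤ β ≠ ⊥ → β ≠ α → β * α ≠ 1 → Iso (ρ := ρ) γ α β) →
      (∃ c : K, N p = c • p) ∨ ∃ w, B p w = 0 ∧ B p' w = 0 ∧ N = wg B w p' := by
    intro α p p' hp hp' h1 hpp hα0 hiso
    have h1' : finrank K (eig (X := T) ρ γ ⊤ α⁻¹) = 1 := by
      rw [dim_dual hnd hB hχ hk hγ hα0, h1]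
    have hp0 : p ≠ 0 := by
      rintro rfl
      exact hpp (map_zero _)
    have hp'0 : p' ≠ 0 := by
      rintro rfl
      rw [map_zero, LinearMap.zero_apply] at hpp
      exact hpp rfl
    have h2 := Lnu_maps hN hp
    by_cases h3 : N p = 0
    · exact Or.inl ⟨0, by rw [h3, zero_smul]⟩
    have h4 : eig (X := T) ρ γ ⊤ (α * ν) ≠ ⊥ := Submodule.ne_bot_iff _ |>.2 ⟨_, h2, h3⟩
    have hβ0 : α * ν ≠ 0 := eig_ne h4
    by_cases h5 : α * ν = α
    · rw [h5] at h2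
      exact Or.inl (span_one h1 hp hp0 h2)
    by_cases h6 : (α * ν) * α = 1
    · have h7 : α * ν = α⁻¹ := eq_inv_of_mul_eq_one_left h6
      rw [h7] at h2
      obtain ⟨c, hc⟩ := span_one h1' hp' hp'0 h2
      have h8 := hsk p
      rw [hc, map_smul, LinearMap.smul_apply, smul_eq_mul] at h8
      have h9 : c = 0 := (mul_eq_zero.1 h8).resolve_right hpp
      exact absurd (by rw [hc, h9, zero_smul]) h3
    · right
      have hN' : N ∈ Lnu (R := ρ) (LL S B ρ σ) γ ((α * ν) * α⁻¹) := by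
        rwa [show (α * ν) * α⁻¹ = ν by field_simp]
      have h7 := rank_two hsy hnd hB hχ hk hγ hp hp' h1 hpp h5 h6 hβ0
        (hiso _ h4 h5 h6) hN'
      refine ⟨(B p' p)⁻¹ • N p, ?_, ?_, ?_⟩
      · rw [map_smul, orth hB hχ (by rw [mul_comm]; exact h6) hp h2, smul_zero]
      · rw [map_smul, orth hB hχ (fun h => h5 ?_) hp' h2, smul_zero]
        have h8 := congrArg (fun x => α * x) h
        simp only [mul_inv_cancel_left₀ hα0, mul_one] at h8
        exact h8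
      · rw [wg_smul_left, ← h7, smul_smul, inv_mul_cancel₀ hpp, one_smul]
  rcases main α p p' hp hp' h1 hpp hα0 hiso with h2 | h2
  · have hiso' : ∀ β, eig (X := T) ρ γ ⊤ β ≠ ⊥ → β ≠ α⁻¹ → β * α⁻¹ ≠ 1 →
        Iso (ρ := ρ) γ α⁻¹ β := by
      intro β hβ hβ1 hβ2
      have hβ0 := eig_ne hβ
      refine Iso.dual hnd hB hχ hk hγ hα0 hβ0 (hiso β⁻¹ ?_ ?_ ?_)
      · intro h
        have h3 := dim_dual (ρ := ρ) hnd hB hχ hk hγ hβ0
        rw [h, finrank_bot] at h3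
        exact hβ (Submodule.finrank_eq_zero.1 h3.symm)
      · intro h
        apply hβ1
        rw [← h, inv_inv]
      · intro h
        apply hβ2
        have h3 : β⁻¹ = α⁻¹ := eq_inv_of_mul_eq_one_left h
        rw [← h3, mul_inv_cancel₀ hβ0]
    rcases main α⁻¹ p' p hp' (by rw [inv_inv]; exact hp) h1' (by rw [hsy]; exact hpp)
      (inv_ne_zero hα0) hiso' with h3 | ⟨w, h3, h4, h5⟩
    · exact Or.inl ⟨h2, h3⟩
    · exact Or.inr (Or.inr ⟨w, h4, h3, h5⟩)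
  · exact Or.inr (Or.inl h2)

include hB hk hγ in
/-- A property which is true for the homogeneous elements and stable under sums is true for
the whole Lie algebra. -/
theorem LL_ind {P : End K T → Prop} (h0 : P 0) (hadd : ∀ A A', P A → P A' → P (A + A'))
    (hhom : ∀ ν, ∀ N ∈ Lnu (R := ρ) (LL S B ρ σ) γ ν, P N) {A : End K T}
    (hA : A ∈ LL S B ρ σ) : P A := by
  classical
  obtain ⟨f, hf, hfs⟩ := LL_comp hB hk hγ hA
  rw [← hfs, Finsupp.sum]
  generalize f.support = s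
  induction s using Finset.induction_on with
  | empty => rw [Finset.sum_empty]; exact h0
  | insert i s hi ih => rw [Finset.sum_insert hi]; exact hadd _ _ (hhom i _ (hf i)) ih

include hsy hnd hB hχ hk hγ in
/-- **The decomposition of the elements of the Lie algebra.** -/
theorem dec {α : K} {p p' : T} (hp : p ∈ eig (X := T) ρ γ ⊤ α)
    (hp' : p' ∈ eig (X := T) ρ γ ⊤ α⁻¹) (h1 : finrank K (eig (X := T) ρ γ ⊤ α) = 1)
    (hpp : B p' p ≠ 0)
    (hiso : ∀ β, eig (X := T) ρ γ ⊤ β ≠ ⊥ → β ≠ α → β * α ≠ 1 → Iso (ρ := ρ) γ α β)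
    {A : End K T} (hA : A ∈ LL S B ρ σ) :
    ∃ w w' : T, ∃ C ∈ LL S B ρ σ, wg B w p' ∈ LL S B ρ σ ∧ wg B w' p ∈ LL S B ρ σ ∧
      B p w = 0 ∧ B p' w = 0 ∧ B p w' = 0 ∧ B p' w' = 0 ∧
      (∃ c : K, C p = c • p) ∧ (∃ c : K, C p' = c • p') ∧ A = wg B w p' + wg B w' p + C := by
  have z : ∀ b : T, wg B 0 b = 0 := by
    intro b
    have h := wg_smul_left (B := B) (0 : K) (0 : T) b
    rwa [zero_smul, zero_smul] at h
  refine LL_ind (S := S) (σ := σ) (P := fun A => ∃ w w' : T, ∃ C ∈ LL S B ρ σ,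
    wg B w p' ∈ LL S B ρ σ ∧ wg B w' p ∈ LL S B ρ σ ∧
      B p w = 0 ∧ B p' w = 0 ∧ B p w' = 0 ∧ B p' w' = 0 ∧
      (∃ c : K, C p = c • p) ∧ (∃ c : K, C p' = c • p') ∧ A = wg B w p' + wg B w' p + C)
    hB hk hγ ?_ ?_ ?_ hA
  · refine ⟨0, 0, 0, Submodule.zero_mem _, ?_, ?_, map_zero _, map_zero _, map_zero _,
      map_zero _, ⟨0, by simp⟩, ⟨0, by simp⟩, ?_⟩
    · rw [z]; exact Submodule.zero_mem _
    · rw [z]; exact Submodule.zero_mem _
    · rw [z, z, add_zero, add_zero]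
  · rintro A A' ⟨w, w', C, hC, h1, h2, h3, h4, h5, h6, ⟨c, h7⟩, ⟨c', h8⟩, h9⟩
      ⟨v, v', D, hD, k1, k2, k3, k4, k5, k6, ⟨d, k7⟩, ⟨d', k8⟩, k9⟩
    refine ⟨w + v, w' + v', C + D, Submodule.add_mem _ hC hD, ?_, ?_, ?_, ?_, ?_, ?_,
      ⟨c + d, ?_⟩, ⟨c' + d', ?_⟩, ?_⟩
    · rw [wg_add_left]; exact Submodule.add_mem _ h1 k1
    · rw [wg_add_left]; exact Submodule.add_mem _ h2 k2
    · rw [map_add, h3, k3, add_zero]
    · rw [map_add, h4, k4, add_zero]
    · rw [map_add, h5, k5, add_zero]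
    · rw [map_add, h6, k6, add_zero]
    · rw [LinearMap.add_apply, h7, k7, add_smul]
    · rw [LinearMap.add_apply, h8, k8, add_smul]
    · rw [h9, k9, wg_add_left, wg_add_left]
      abel
  · intro ν N hN
    rcases types hsy hnd hB hχ hk hγ hp hp' h1 hpp hiso hN with ⟨h2, h3⟩ | ⟨w, h2, h3, h4⟩ |
      ⟨w, h2, h3, h4⟩
    · refine ⟨0, 0, N, hN.1, ?_, ?_, map_zero _, map_zero _, map_zero _, map_zero _, h2, h3, ?_⟩
      · rw [z]; exact Submodule.zero_mem _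
      · rw [z]; exact Submodule.zero_mem _
      · rw [z, z, zero_add, zero_add]
    · refine ⟨w, 0, 0, Submodule.zero_mem _, ?_, ?_, h2, h3, map_zero _, map_zero _,
        ⟨0, by simp⟩, ⟨0, by simp⟩, ?_⟩
      · rw [← h4]; exact hN.1
      · rw [z]; exact Submodule.zero_mem _
      · rw [z, add_zero, add_zero, h4]
    · refine ⟨0, w, 0, Submodule.zero_mem _, ?_, ?_, map_zero _, map_zero _, h2, h3,
        ⟨0, by simp⟩, ⟨0, by simp⟩, ?_⟩
      · rw [z]; exact Submodule.zero_mem _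
      · rw [← h4]; exact hN.1
      · rw [z, zero_add, add_zero, h4]

end

end Run7.h190.EV
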