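import Mathlib
import Pool.Agent.Run7.h190.EV.Fin

/-!
# The case of a pair of simple isolated eigenvalues
-/

set_option linter.unusedSectionVars false

namespace Run7.h190.EV

open Module Finset Function Pool.Agent.TH125.Gal Pool.Agent.TH118.IS Pool.Agent.TH118.SG
open Pool.Agent.H204R3.SP Pool.Agent.H204R3.GP Pool.Agent.W522.U Pool.Agent.TH118.CU
open Pool.Agent.TH118.CR (avg scalar_of_vector)
open Pool.Agent.V11219.IsoF (EigIn LL_of_Lnu')

section

variable {K : Type} [Field K] {X : Type} [AddCommGroup X] [Module K X]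
  [FiniteDimensional K X] {Γ : Type} [Group Γ] {R : Representation K Γ X}

/-- Elements of the algebra generated by a conjugation stable space of operators act faithfully on
invariant subspaces. -/
theorem ann_adjoin (hX : Pool.Agent.W522.U.SI R (⊤ : Submodule K X)) (L : Submodule K (End K X))
    (hL : ∀ g : Γ, ∀ x ∈ L, R g * x * R g⁻¹ ∈ L) {U : Submodule K X} (hU0 : U ≠ ⊥)
    (hU : ∀ x ∈ L, ∀ u ∈ U, x u ∈ U) {x : End K X}
    (hx : x ∈ Algebra.adjoin K (L : Set (End K X))) (hxU : ∀ u ∈ U, x u = 0) :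
    x = 0 := by
  refine Pool.Agent.TH118.SC.ann hX (Algebra.adjoin K (L : Set (End K X))) ?_ hU0 ?_ hx hxU
  · intro g y hy
    induction hy using Algebra.adjoin_induction with
    | mem y hy => exact Algebra.subset_adjoin (hL g y hy)
    | algebraMap c =>
      have h1 : R g * algebraMap K (End K X) c * R g⁻¹ = algebraMap K (End K X) c := by
        rw [← Algebra.commutes, mul_assoc, ← map_mul, mul_inv_cancel, map_one, mul_one]
      rw [h1]
      exact Subalgebra.algebraMap_mem _ c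
    | add y z _ _ hy hz =>
      rw [mul_add, add_mul]
      exact Subalgebra.add_mem _ hy hz
    | mul y z _ _ hy hz =>
      have h1 : R g * (y * z) * R g⁻¹ = (R g * y * R g⁻¹) * (R g * z * R g⁻¹) := by
        have h2 : R g⁻¹ * R g = 1 := by rw [← map_mul, inv_mul_cancel, map_one]
        calc R g * (y * z) * R g⁻¹ = R g * y * 1 * z * R g⁻¹ := by noncomm_ring
          _ = _ := by rw [← h2]; noncomm_ring
      rw [h1]
      exact Subalgebra.mul_mem _ hy hz
  · intro y hy
    induction hy using Algebra.adjoin_induction with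
    | mem y hy => exact hU y hy
    | algebraMap c =>
      intro u hu
      rw [Module.algebraMap_end_apply]
      exact U.smul_mem c hu
    | add y z _ _ hy hz =>
      intro u hu
      rw [LinearMap.add_apply]
      exact U.add_mem (hy u hu) (hz u hu)
    | mul y z _ _ hy hz =>
      intro u hu
      rw [Module.End.mul_apply]
      exact hy _ (hz u hu)

end

variable {K : Type} [Field K] [CharZero K] {T : Type} [AddCommGroup T]
  [Module K T] [FiniteDimensional K T] {E : Type} [AddCommGroup E] [Module K E]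
  {S : Type} [Fintype S] [DecidableEq S] {G : Type} [Group G]
  {B : T →ₗ[K] T →ₗ[K] K} {ρ : G →* (T →ₗ[K] T)} {σ : G →* (E →ₗ[K] E)} {χ : G →* K}

/-- The vectors `w`, orthogonal to `p` and `q`, with `w ∧ q` in the Lie algebra. -/
def Ws (S : Type) [Fintype S] [DecidableEq S] (B : T →ₗ[K] T →ₗ[K] K)
    (ρ : G →* (T →ₗ[K] T)) (σ : G →* (E →ₗ[K] E)) (p q : T) : Submodule K T where
  carrier := {w | B p w = 0 ∧ B q w = 0 ∧ wg B w q ∈ LL S B ρ σ}
  zero_mem' := by
    refine ⟨map_zero _, map_zero _, ?_⟩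
    have h := wg_smul_left (B := B) (0 : K) (0 : T) q
    rw [zero_smul, zero_smul] at h
    rw [h]
    exact Submodule.zero_mem _
  add_mem' := by
    rintro a b ⟨h1, h2, h3⟩ ⟨k1, k2, k3⟩
    refine ⟨by rw [map_add, h1, k1, add_zero], by rw [map_add, h2, k2, add_zero], ?_⟩
    rw [wg_add_left]
    exact Submodule.add_mem _ h3 k3
  smul_mem' := by
    rintro c a ⟨h1, h2, h3⟩
    refine ⟨by rw [map_smul, h1, smul_zero], by rw [map_smul, h2, smul_zero], ?_⟩
    rw [wg_smul_left]
    exact Submodule.smul_mem _ c h3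

theorem mem_Ws {p q w : T} : w ∈ Ws S B ρ σ p q ↔
    B p w = 0 ∧ B q w = 0 ∧ wg B w q ∈ LL S B ρ σ := Iff.rfl

/-- Every element of the Lie algebra is a sum of an element `w ∧ q`, an element `w' ∧ p` and an element
with the eigenvectors `p` and `q`. -/
def Dec (S : Type) [Fintype S] [DecidableEq S] (B : T →ₗ[K] T →ₗ[K] K)
    (ρ : G →* (T →ₗ[K] T)) (σ : G →* (E →ₗ[K] E)) (p q : T) : Prop :=
  ∀ A ∈ LL S B ρ σ, ∃ w ∈ Ws S B ρ σ p q, ∃ w' ∈ Ws S B ρ σ q p, ∃ C ∈ LL S B ρ σ,
    (∃ c : K, C p = c • p) ∧ (∃ c : K, C q = c • q) ∧ A = wg B w q + wg B w' p + C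

theorem Dec.symm {p q : T} (h : Dec S B ρ σ p q) : Dec S B ρ σ q p := by
  intro A hA
  obtain ⟨w, hw, w', hw', C, hC, h1, h2, h3⟩ := h A hA
  exact ⟨w', hw', w, hw, C, hC, h2, h1, by rw [h3]; abel⟩

/-- All the vectors `w` are isotropic. -/
def Isotropic (S : Type) [Fintype S] [DecidableEq S] (B : T →ₗ[K] T →ₗ[K] K)
    (ρ : G →* (T →ₗ[K] T)) (σ : G →* (E →ₗ[K] E)) (p q : T) : Prop :=
  ∀ w ∈ Ws S B ρ σ p q, B w w = 0

section

variable (hsy : ∀ x y, B x y = B y x) (hX : Pool.Agent.W522.U.SI (X := T) ρ (⊤ : Submodule K T))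
  (hB : ∀ g x y, B (ρ g x) (ρ g y) = χ g * B x y)

include hsy in
theorem Isotropic.pair {p q : T} (h : Isotropic S B ρ σ p q) {v w : T}
    (hv : v ∈ Ws S B ρ σ p q) (hw : w ∈ Ws S B ρ σ p q) : B v w = 0 := by
  have h1 := h _ (Submodule.add_mem _ hv hw)
  simp only [map_add, LinearMap.add_apply] at h1
  rw [h v hv, h w hw, zero_add, add_zero, hsy w v] at h1
  have h2 : (2 : K) * B v w = 0 := by linear_combination h1
  exact (mul_eq_zero.1 h2).resolve_left two_ne_zero

include hsy in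
/-- The elements with the eigenvectors `p` and `q` preserve the space. -/
theorem Ws_stable {p q : T} {C : End K T} (hC : C ∈ LL S B ρ σ) {c d : K} (hp : C p = c • p)
    (hq : C q = d • q) {w : T} (hw : w ∈ Ws S B ρ σ p q) : C w ∈ Ws S B ρ σ p q := by
  obtain ⟨h1, h2, h3⟩ := hw
  refine ⟨?_, ?_, ?_⟩
  · have h4 := hC.1 p w
    rw [hp, map_smul, LinearMap.smul_apply, h1, smul_zero, zero_add] at h4
    exact h4
  · have h4 := hC.1 q w
    rw [hq, map_smul, LinearMap.smul_apply, h2, smul_zero, zero_add] at h4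
    exact h4
  · have h4 := LL_bracket hC h3
    rw [wg_bracket hC.1, hq, wg_smul_right] at h4
    have h5 := Submodule.sub_mem _ h4 (Submodule.smul_mem _ d h3)
    rwa [add_sub_cancel_right] at h5

include hsy hX hB in
/-- **The two relations.** -/
theorem half {p q : T} (hpp : B p p = 0) (hpq : B q p ≠ 0)
    (hdec : Dec S B ρ σ p q) (hiso : Isotropic S B ρ σ p q) :
    (∀ w ∈ Ws S B ρ σ q p, (∀ w' ∈ Ws S B ρ σ p q, B w w' = 0) → w = 0) ∧
    ∀ w ∈ Ws S B ρ σ q p, ∀ w₁ ∈ Ws S B ρ σ q p, ∀ w' ∈ Ws S B ρ σ p q,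
      B w' w₁ • w = B w w' • w₁ := by
  have hpq' : B p q ≠ 0 := by rw [hsy]; exact hpq
  have hp0 : p ≠ 0 := by
    rintro rfl
    exact hpq (map_zero _)
  have hconj : ∀ g : G, ∀ Y ∈ LL S B ρ σ, ρ g * Y * ρ g⁻¹ ∈ LL S B ρ σ :=
    fun g Y hY => LL_conj (μ := χ) hB hY g
  let U : Submodule K T := Submodule.span K {p} ⊔ Ws S B ρ σ p q
  have hpU : p ∈ U := Submodule.mem_sup_left (Submodule.mem_span_singleton_self p)
  have hU0 : U ≠ ⊥ := Submodule.ne_bot_iff _ |>.2 ⟨p, hpU, hp0⟩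
  -- stability
  have hstp : ∀ A ∈ LL S B ρ σ, A p ∈ U := by
    intro A hA
    obtain ⟨w, hw, w', hw', C, hC, ⟨c, h1⟩, -, h3⟩ := hdec A hA
    have h4 : A p = (B q p) • w + c • p := by
      rw [h3, LinearMap.add_apply, LinearMap.add_apply, wg_apply, wg_apply, h1, hpp,
        hsy w p, hw.1, hsy w' p, hw'.2.1]
      module
    rw [h4]
    exact U.add_mem (Submodule.mem_sup_right (Submodule.smul_mem _ _ hw)) (U.smul_mem _ hpU)
  have hstW : ∀ A ∈ LL S B ρ σ, ∀ v ∈ Ws S B ρ σ p q, A v ∈ U := by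
    intro A hA v hv
    obtain ⟨w, hw, w', hw', C, hC, ⟨c, h1⟩, ⟨d, h2⟩, h3⟩ := hdec A hA
    have h4 : A v = C v - (B w' v) • p := by
      rw [h3, LinearMap.add_apply, LinearMap.add_apply, wg_apply, wg_apply, hv.1, hv.2.1,
        hiso.pair hsy hw hv]
      module
    rw [h4]
    exact U.sub_mem (Submodule.mem_sup_right (Ws_stable hsy hC h1 h2 hv)) (U.smul_mem _ hpU)
  have hstU : ∀ A ∈ LL S B ρ σ, ∀ u ∈ U, A u ∈ U := by
    intro A hA u hu
    obtain ⟨x, hx, v, hv, rfl⟩ := Submodule.mem_sup.1 hu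
    obtain ⟨c, rfl⟩ := Submodule.mem_span_singleton.1 hx
    rw [map_add, map_smul]
    exact U.add_mem (U.smul_mem _ (hstp A hA)) (hstW A hA v hv)
  have hker : ∀ x : End K T, x p = 0 → (∀ v ∈ Ws S B ρ σ p q, x v = 0) → ∀ u ∈ U, x u = 0 := by
    intro x h1 h2 u hu
    obtain ⟨y, hy, v, hv, rfl⟩ := Submodule.mem_sup.1 hu
    obtain ⟨c, rfl⟩ := Submodule.mem_span_singleton.1 hy
    rw [map_add, map_smul, h1, h2 v hv, smul_zero, add_zero]
  have hNp : ∀ w ∈ Ws S B ρ σ q p, wg B w p p = 0 := by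
    intro w hw
    rw [wg_apply, hpp, hsy w p, hw.2.1, zero_smul, zero_smul, sub_zero]
  have hNv : ∀ w ∈ Ws S B ρ σ q p, ∀ v ∈ Ws S B ρ σ p q, wg B w p v = -(B w v) • p := by
    intro w hw v hv
    rw [wg_apply, hv.1]
    module
  have hNq : ∀ w ∈ Ws S B ρ σ q p, wg B w p q = (B p q) • w := by
    intro w hw
    rw [wg_apply, hsy w q, hw.1]
    module
  refine ⟨fun w hw h => ?_, fun w hw w₁ hw₁ w' hw' => ?_⟩
  · have h1 : wg B w p = 0 := by
      refine ann_adjoin hX (LL S B ρ σ) hconj hU0 hstU (Algebra.subset_adjoin hw.2.2)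
        (hker _ (hNp w hw) fun v hv => ?_)
      rw [hNv w hw v hv, h v hv, neg_zero, zero_smul]
    have h2 := hNq w hw
    rw [h1, LinearMap.zero_apply] at h2
    exact (smul_eq_zero.1 h2.symm).resolve_left hpq'
  · have h1 : wg B w p * wg B w' q * wg B w₁ p + (B q p * B w w') • wg B w₁ p = 0 := by
      refine ann_adjoin hX (LL S B ρ σ) hconj hU0 hstU ?_ (hker _ ?_ fun v hv => ?_)
      · exact Subalgebra.add_mem _ (Subalgebra.mul_mem _ (Subalgebra.mul_mem _
          (Algebra.subset_adjoin hw.2.2) (Algebra.subset_adjoin hw'.2.2))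
          (Algebra.subset_adjoin hw₁.2.2)) (Subalgebra.smul_mem _
          (Algebra.subset_adjoin hw₁.2.2) _)
      · rw [LinearMap.add_apply, LinearMap.smul_apply, Module.End.mul_apply, hNp w₁ hw₁, map_zero,
          smul_zero, add_zero]
      · rw [LinearMap.add_apply, LinearMap.smul_apply, Module.End.mul_apply,
          Module.End.mul_apply, hNv w₁ hw₁ v hv, map_smul, map_smul]
        have h2 : wg B w' q p = (B q p) • w' := by
          rw [wg_apply, hsy w' p, hw'.1]
          module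
        rw [h2, map_smul, hNv w hw w' hw']
        module
    have h2 := congrArg (fun x : End K T => x q) h1
    simp only [LinearMap.add_apply, LinearMap.smul_apply, Module.End.mul_apply,
      LinearMap.zero_apply] at h2
    rw [hNq w₁ hw₁, map_smul] at h2
    have h3 : wg B w' q w₁ = -(B w' w₁) • q := by
      rw [wg_apply, hw₁.1]
      module
    rw [h3, map_smul, map_smul, hNq w hw] at h2
    have h4 : (B q p * B p q) • (B w' w₁ • w - B w w' • w₁) = 0 := by
      rw [← neg_eq_zero, ← h2, hsy q p]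
      module
    exact sub_eq_zero.1 ((smul_eq_zero.1 h4).resolve_left (mul_ne_zero hpq hpq'))

include hsy hX hB in
/-- **The isotropic case does not exist.** -/
theorem no_isotropic {p q : T} (hpp : B p p = 0) (hqq : B q q = 0) (hpq : B q p ≠ 0)
    (hdec : Dec S B ρ σ p q) (h1 : Isotropic S B ρ σ p q) (h2 : Isotropic S B ρ σ q p)
    (hdim : 5 ≤ finrank K T) (hne : ∃ A ∈ LL S B ρ σ, A ≠ 0) : False := by
  have hqp : B p q ≠ 0 := by rw [hsy]; exact hpq
  have hp0 : p ≠ 0 := by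
    rintro rfl
    exact hpq (map_zero _)
  have hconj : ∀ g : G, ∀ Y ∈ LL S B ρ σ, ρ g * Y * ρ g⁻¹ ∈ LL S B ρ σ :=
    fun g Y hY => LL_conj (μ := χ) hB hY g
  obtain ⟨a1, a2⟩ := half hsy hX hB hpp hpq hdec h1
  obtain ⟨b1, b2⟩ := half hsy hX hB hqq hqp hdec.symm h2
  by_cases hW : Ws S B ρ σ q p = ⊥
  · -- both spaces are zero
    have hW' : Ws S B ρ σ p q = ⊥ := by
      rw [eq_bot_iff]
      intro w hw
      rw [Submodule.mem_bot]
      refine b1 w hw fun w' hw' => ?_
      rw [hW, Submodule.mem_bot] at hw'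
      rw [hw', map_zero]
    obtain ⟨A, hA, hA0⟩ := hne
    apply hA0
    have h3 : ∀ Y ∈ LL S B ρ σ, ∃ a : K, Y p = a • p := by
      intro Y hY
      obtain ⟨w, hw, w', hw', C, hC, ⟨c, k1⟩, -, k3⟩ := hdec Y hY
      rw [hW', Submodule.mem_bot] at hw
      rw [hW, Submodule.mem_bot] at hw'
      refine ⟨c, ?_⟩
      rw [k3, hw, hw', LinearMap.add_apply, LinearMap.add_apply, k1, wg_apply, wg_apply]
      simp
    obtain ⟨c, hc⟩ := scalar_of_vector hX (LL S B ρ σ) hconj Submodule.mem_top hp0 h3 A hA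
    have h4 := hA.1 p q
    rw [hc p Submodule.mem_top, hc q Submodule.mem_top, map_smul, map_smul,
      LinearMap.smul_apply, smul_eq_mul] at h4
    have h5 : (2 * c) * B p q = 0 := by linear_combination h4
    have h6 : c = 0 :=
      (mul_eq_zero.1 ((mul_eq_zero.1 h5).resolve_right hqp)).resolve_left two_ne_zero
    apply LinearMap.ext
    intro u
    rw [hc u Submodule.mem_top, h6, zero_smul, LinearMap.zero_apply]
  · obtain ⟨w₁, hw₁, hw₁0⟩ := Submodule.exists_mem_ne_zero_of_ne_bot hW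
    obtain ⟨w₂, hw₂, hw₂0⟩ : ∃ w' ∈ Ws S B ρ σ p q, B w₁ w' ≠ 0 := by
      by_contra hcon
      push Not at hcon
      exact hw₁0 (a1 w₁ hw₁ hcon)
    have hgen : ∀ w ∈ Ws S B ρ σ q p, ∃ c : K, w = c • w₁ := by
      intro w hw
      have h3 := a2 w hw w₁ hw₁ w₂ hw₂
      refine ⟨(B w₂ w₁)⁻¹ * B w w₂, ?_⟩
      rw [mul_smul, ← h3, smul_smul, inv_mul_cancel₀ (by rw [hsy]; exact hw₂0), one_smul]
    have hgen' : ∀ w ∈ Ws S B ρ σ p q, ∃ c : K, w = c • w₂ := by
      intro w hw
      have h3 := b2 w hw w₂ hw₂ w₁ hw₁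
      refine ⟨(B w₁ w₂)⁻¹ * B w w₁, ?_⟩
      rw [mul_smul, ← h3, smul_smul, inv_mul_cancel₀ hw₂0, one_smul]
    -- the complement
    let Φ : T →ₗ[K] (Fin 4 → K) := LinearMap.pi ![B p, B q, B w₁, B w₂]
    have hlt : finrank K (Fin 4 → K) < finrank K T := by
      rw [Module.finrank_fin_fun]
      omega
    obtain ⟨x, hx, hx0⟩ := Submodule.exists_mem_ne_zero_of_ne_bot
      (LinearMap.ker_ne_bot_of_finrank_lt (f := Φ) hlt)
    have hmem : ∀ x, x ∈ LinearMap.ker Φ ↔ B p x = 0 ∧ B q x = 0 ∧ B w₁ x = 0 ∧ B w₂ x = 0 := by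
      intro x
      rw [LinearMap.mem_ker, funext_iff]
      constructor
      · intro h
        exact ⟨h 0, h 1, h 2, h 3⟩
      · rintro ⟨k0, k1, k2, k3⟩ i
        fin_cases i
        · exact k0
        · exact k1
        · exact k2
        · exact k3
    have hst : ∀ A ∈ LL S B ρ σ, ∀ u ∈ LinearMap.ker Φ, A u ∈ LinearMap.ker Φ := by
      intro A hA u hu
      rw [hmem] at hu ⊢
      obtain ⟨k0, k1, k2, k3⟩ := hu
      obtain ⟨w, hw, w', hw', C, hC, ⟨c, e1⟩, ⟨d, e2⟩, e3⟩ := hdec A hA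
      have hsk : ∀ y, B y (A u) = - B (A y) u := fun y => by
        rw [eq_neg_iff_add_eq_zero, add_comm]
        exact hA.1 y u
      have f1 : B w u = 0 := by
        obtain ⟨c, rfl⟩ := hgen' w hw
        rw [map_smul, LinearMap.smul_apply, k3, smul_zero]
      have f2 : B w' u = 0 := by
        obtain ⟨c, rfl⟩ := hgen w' hw'
        rw [map_smul, LinearMap.smul_apply, k2, smul_zero]
      have f3 : B (C w₁) u = 0 := by
        obtain ⟨c, hc⟩ := hgen _ (Ws_stable hsy hC e2 e1 hw₁)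
        rw [hc, map_smul, LinearMap.smul_apply, k2, smul_zero]
      have f4 : B (C w₂) u = 0 := by
        obtain ⟨c, hc⟩ := hgen' _ (Ws_stable hsy hC e1 e2 hw₂)
        rw [hc, map_smul, LinearMap.smul_apply, k3, smul_zero]
      have hAy : ∀ y, B (A y) u = B (C y) u := by
        intro y
        rw [e3, LinearMap.add_apply, LinearMap.add_apply, wg_apply, wg_apply]
        simp only [map_add, map_sub, map_smul, LinearMap.add_apply, LinearMap.sub_apply,
          LinearMap.smul_apply, smul_eq_mul, f1, f2, k0, k1]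
        ring
      refine ⟨?_, ?_, ?_, ?_⟩
      · rw [hsk, hAy, e1, map_smul, LinearMap.smul_apply, k0, smul_zero, neg_zero]
      · rw [hsk, hAy, e2, map_smul, LinearMap.smul_apply, k1, smul_zero, neg_zero]
      · rw [hsk, hAy, f3, neg_zero]
      · rw [hsk, hAy, f4, neg_zero]
    have h3 : wg B w₁ p = 0 := by
      refine ann_adjoin hX (LL S B ρ σ) hconj (Submodule.ne_bot_iff _ |>.2 ⟨x, hx, hx0⟩) hst
        (Algebra.subset_adjoin hw₁.2.2) fun u hu => ?_
      obtain ⟨k0, k1, k2, k3⟩ := (hmem u).1 hu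
      rw [wg_apply, k0, k2, zero_smul, zero_smul, sub_zero]
    have h4 := congrArg (fun x : End K T => x q) h3
    simp only [LinearMap.zero_apply] at h4
    rw [wg_apply, hsy w₁ q, hw₁.1, zero_smul, sub_zero] at h4
    exact hw₁0 ((smul_eq_zero.1 h4).resolve_left hqp)

end

/-- **The orthogonal Lie algebra from an element of finite order with a simple isolated
eigenvalue.** -/
theorem fin_full [IsAlgClosed K] [FiniteDimensional K E] (hsy : ∀ x y, B x y = B y x)
    (hnd : ∀ u, (∀ v, B u v = 0) → u = 0)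
    (hB : ∀ g x y, B (ρ g x) (ρ g y) = χ g * B x y) (hSI : Pool.Agent.TH125.Gal.SI ρ)
    {γ : G} (hχ : χ γ = 1) {Λ : Subgroup Kˣ} (hσ : EigIn Λ (σ γ)) {k : ℕ} (hk : 0 < k)
    (hγ : ρ γ ^ k = 1) {α : K} (h1 : finrank K (Module.End.eigenspace (ρ γ) α) = 1)
    (hdim : α * α = 1 ∨ 5 ≤ finrank K T)
    (hiso : ∀ β, finrank K (Module.End.eigenspace (ρ γ) β) ≠ 0 → β ≠ α → β * α ≠ 1 →
      (∀ l ∈ Λ, (l : K) ≠ β * α⁻¹) ∧
      ∀ α', finrank K (Module.End.eigenspace (ρ γ) α') ≠ 0 →
        finrank K (Module.End.eigenspace (ρ γ) (α' * (β * α⁻¹))) ≠ 0 → α' = α ∨ α' * β = 1 ∨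
        (finrank K (Module.End.eigenspace (ρ γ) α') = 1 ∧ α' * (α' * (β * α⁻¹)) = 1))
    (F : G) {u v : T} (hu0 : u ≠ 0) (hv0 : v ≠ 0) {al be : K}
    (hu : ρ F u = al • u) (hv : ρ F v = be • v) (hab : ∀ k : ℕ, 0 < k → al ^ k ≠ be ^ k)
    (x y : T) : wg B x y ∈ LL S B ρ σ := by
  have hX := SI_conv ⟨u, hu0⟩ hSI
  have hμ : ∀ g, χ g ≠ 0 := χne
  have heig : ∀ α, eig (X := T) ρ γ ⊤ α = Module.End.eigenspace (ρ γ) α := fun α => top_inf_eq _
  have hfin : ∀ α, finrank K (Module.End.eigenspace (ρ γ) α) =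
      finrank K (eig (X := T) ρ γ ⊤ α) := fun α => by rw [heig]
  simp only [hfin] at h1 hiso
  have hbot : ∀ β, eig (X := T) ρ γ ⊤ β ≠ ⊥ ↔ finrank K (eig (X := T) ρ γ ⊤ β) ≠ 0 :=
    fun β => not_congr Submodule.finrank_eq_zero.symm
  have hI : ∀ β, eig (X := T) ρ γ ⊤ β ≠ ⊥ → β ≠ α → β * α ≠ 1 → Iso (ρ := ρ) γ α β := by
    intro β hβ h2 h3 α' h4 h5
    exact (hiso β ((hbot β).1 hβ) h2 h3).2 α' ((hbot _).1 h4) ((hbot _).1 h5)
  have hαb : eig (X := T) ρ γ ⊤ α ≠ ⊥ := by
    rw [hbot, h1]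
    exact one_ne_zero
  have hα0 := eig_ne hαb
  have h1' : finrank K (eig (X := T) ρ γ ⊤ α⁻¹) = 1 := by
    rw [dim_dual hnd hB hχ hk hγ hα0, h1]
  obtain ⟨p, hp, hp0⟩ := Submodule.exists_mem_ne_zero_of_ne_bot hαb
  obtain ⟨q, hq, hq0⟩ : ∃ q ∈ eig (X := T) ρ γ ⊤ α⁻¹, B q p ≠ 0 := by
    by_contra hcon
    push Not at hcon
    apply hp0
    refine zero_dual hnd hB hχ hk hγ hp fun β hβ w hw => ?_
    rw [hsy]
    refine hcon w ?_
    rwa [← eq_inv_of_mul_eq_one_right hβ]
  have hq00 : q ≠ 0 := by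
    rintro rfl
    rw [map_zero, LinearMap.zero_apply] at hq0
    exact hq0 rfl
  -- an element of the Lie algebra
  obtain ⟨N, hN, hNp⟩ : ∃ N ∈ LL S B ρ σ, ∀ c : K, N p ≠ c • p := by
    obtain ⟨Y, hY, hYn⟩ := exists_PP (S := S) (σ := σ) (μ := χ) hB F hu0 hv0 hu hv hab
    have hconjP : ∀ g : G, ∀ Y ∈ LP S B ρ σ, ρ g * Y * ρ g⁻¹ ∈ LP S B ρ σ :=
      fun g Y hY => LP_conj (μ := χ) hB g Y hY
    by_contra hcon
    push Not at hcon
    apply hYn
    have h2 : ∀ Y ∈ LP S B ρ σ, ∃ c : K, Y p = c • p := by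
      intro Y hY
      obtain ⟨f, hf, hfs, hf1⟩ := image_comp hk hγ (Y := Y) hp
      have h3 : ∀ β, β ≠ α → f β = 0 := by
        intro β hβ
        by_contra h0
        have hβb : eig (X := T) ρ γ ⊤ β ≠ ⊥ := Submodule.ne_bot_iff _ |>.2 ⟨_, hf β, h0⟩
        obtain ⟨h4, hβk, hβ0⟩ := hf1 β h0
        by_cases h5 : β * α = 1
        · -- the dual eigenvalue
          obtain ⟨c, Y', hP⟩ := mem_LP.1 hY
          have h6 : B (Y p) p = 0 := by
            have h7 := (mem_PP.1 hP).1 p p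
            have h8 : B p p = 0 := orth hB hχ (fun h => hβ (by
              have h9 : (β - α) * α = 0 := by linear_combination h5 - h
              exact sub_eq_zero.1 ((mul_eq_zero.1 h9).resolve_right hα0))) hp hp
            rw [h8, mul_zero, hsy p (Y p)] at h7
            have h9 : (2 : K) * B (Y p) p = 0 := by linear_combination h7
            exact (mul_eq_zero.1 h9).resolve_left two_ne_zero
          have h7 : B (Y p) p = B (f β) p := by
            rw [← hfs, Finsupp.sum, map_sum, LinearMap.sum_apply]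
            refine Finset.sum_eq_single β (fun β' _ hβ' => ?_) fun h => ?_
            · refine orth hB hχ (fun h => hβ' ?_) (hf β') hp
              have h9 : (β' - β) * α = 0 := by linear_combination h - h5
              exact sub_eq_zero.1 ((mul_eq_zero.1 h9).resolve_right hα0)
            · rw [Finsupp.notMem_support_iff.1 h, map_zero, LinearMap.zero_apply]
          have h8 : f β ∈ eig (X := T) ρ γ ⊤ α⁻¹ := by
            rw [← eq_inv_of_mul_eq_one_left h5]
            exact hf β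
          obtain ⟨d, hd⟩ := span_one h1' hq hq00 h8
          rw [h6, hd, map_smul, LinearMap.smul_apply, smul_eq_mul] at h7
          have h9 : d = 0 := (mul_eq_zero.1 h7.symm).resolve_right hq0
          exact h0 (by rw [hd, h9, zero_smul])
        · have h6 : avg (X := T) ρ γ k (β * α⁻¹) Y ∈ Lnu (R := ρ) (LP S B ρ σ) γ (β * α⁻¹) :=
            avg_Lnu hconjP hγ (by rw [mul_pow, inv_pow, eig_root hγ hαb, hβk, inv_one, mul_one])
              (mul_ne_zero hβ0 (inv_ne_zero hα0)) hY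
          have h7 := LL_of_Lnu' hB hσ (hiso β ((hbot β).1 hβb) hβ h5).1 h6
          obtain ⟨c, hc⟩ := hcon _ h7
          rw [← h4] at hc
          -- a vector of two eigenspaces
          have h8 : (k : K) • f β ∈ eig (X := T) ρ γ ⊤ α := by
            rw [hc]
            exact Submodule.smul_mem _ _ hp
          have h9 : (k : K) • f β ∈ eig (X := T) ρ γ ⊤ β := Submodule.smul_mem _ _ (hf β)
          have h10 : (k : K) • f β = 0 := by
            have h11 := (mem_eig.1 h8).2
            have h12 := (mem_eig.1 h9).2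
            rw [h11] at h12
            have h13 : (α - β) • ((k : K) • f β) = 0 := by rw [sub_smul, h12, sub_self]
            exact (smul_eq_zero.1 h13).resolve_left (sub_ne_zero.2 (Ne.symm hβ))
          exact h0 ((smul_eq_zero.1 h10).resolve_left (Nat.cast_ne_zero.2 hk.ne'))
      have h4 : Y p = f α := by
        rw [← hfs, Finsupp.sum, Finset.sum_eq_single α]
        · intro β _ hβ
          exact h3 β hβ
        · intro h
          exact Finsupp.notMem_support_iff.1 h
      rw [h4]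
      exact span_one h1 hp hp0 (hf α)
    obtain ⟨c, hc⟩ := scalar_of_vector hX (LP S B ρ σ) hconjP Submodule.mem_top hp0 h2 Y hY
    exact ⟨c, fun x => hc x Submodule.mem_top⟩
  by_cases hαα : α * α = 1
  · -- the eigenvalue is its own inverse
    have hαi : α⁻¹ = α := (eq_inv_of_mul_eq_one_left hαα).symm
    have hqp : ∃ c : K, q = c • p := span_one h1 hp hp0 (by rw [← hαi]; exact hq)
    have hpp : B p p ≠ 0 := by
      intro h
      obtain ⟨c, rfl⟩ := hqp
      apply hq0
      rw [map_smul, LinearMap.smul_apply, h, smul_zero]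
    have hm : Moves S B ρ σ p := by
      intro A hA
      obtain ⟨w, w', C, hC, k1, k2, k3, k4, k5, k6, ⟨c, k7⟩, -, k9⟩ :=
        dec hsy hnd hB hχ hk hγ hp (by rw [hαi]; exact hp) h1 hpp hI hA
      have h2 : A p = (B p p) • (w + w') + c • p := by
        rw [k9, LinearMap.add_apply, LinearMap.add_apply, k7, wg_apply, wg_apply, hsy w p,
          hsy w' p, k3, k5]
        module
      rw [h2]
      refine Submodule.add_mem _ (Submodule.smul_mem _ _ ?_) (Submodule.smul_mem _ _ ?_)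
      · rw [mem_partners, wg_neg_swap, wg_add_left]
        exact Submodule.neg_mem _ (Submodule.add_mem _ k1 k2)
      · rw [mem_partners, wg_self]
        exact Submodule.zero_mem _
    exact full_of_moves hsy hpp hm hμ hB hSI (hm N hN) hNp x y
  · have hd := hdim.resolve_left hαα
    have hpp : B p p = 0 := orth hB hχ hαα hp hp
    have hqq : B q q = 0 := orth hB hχ (fun h => hαα (by
      rw [← inv_inj, mul_inv, inv_one]
      exact h)) hq hq
    have hdec : Dec S B ρ σ p q := by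
      intro A hA
      obtain ⟨w, w', C, hC, k1, k2, k3, k4, k5, k6, k7, k8, k9⟩ :=
        dec hsy hnd hB hχ hk hγ hp hq h1 hq0 hI hA
      exact ⟨w, ⟨k3, k4, k1⟩, w', ⟨k6, k5, k2⟩, C, hC, k7, k8, k9⟩
    have hfull : ∀ p q : T, p ≠ 0 → B p p = 0 → ∀ w ∈ Ws S B ρ σ q p, B w w ≠ 0 →
        wg B x y ∈ LL S B ρ σ := by
      intro p q hp0 hpp w hw hww
      refine full_of_plane hsy hμ hB hSI hnd hp0 hpp hw.2.1 hww ?_ x y
      rw [wg_neg_swap]
      exact Submodule.neg_mem _ hw.2.2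
    by_contra hcon
    refine no_isotropic hsy hX hB hpp hqq hq0 hdec ?_ ?_ hd ⟨N, hN, ?_⟩
    · intro w hw
      by_contra h
      exact hcon (hfull q p hq00 hqq w hw h)
    · intro w hw
      by_contra h
      exact hcon (hfull p q hp0 hpp w hw h)
    · rintro rfl
      exact hNp 0 (by rw [LinearMap.zero_apply, zero_smul])

end Run7.h190.EV
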