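import Pool.Agent.Run7.h190.EV.Pub

/-!
# Systems of polarized varieties
-/

open CategoryTheory AlgebraicGeometry

universe u

namespace Run7.h190.EV

open Pool.Agent.TH125.Gal Pool.Agent.V11219.Loc
open Pool.Agent.H914 Pool.Agent.H914.VarClass Pool.Agent.H914.VarClass.Obj
  Pool.Agent.H914.WeilCohomology Pool.Agent.H281R3.HT

variable {k : Type u} [Field k] {𝒱 : VarClass k} {ops : CycleOps 𝒱}
  {W : WeilCohomology.{u, 0} ops} {Γ : Type} [Group Γ] {ι : Type}

/-- The group acts on the cohomology of the members of the class `G` like a Galois group, and `G`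
is closed under products. The varieties `Z` and `X i` are members of `G`; the divisors `D i` on `X i`
satisfy the hard Lefschetz theorem and the standard conjectures of Lefschetz and of Hodge type; the
transcendental cohomology of `X i` is in the middle degree and irreducible under all subgroups of
finite index. -/
structure PolarSystem (χ : Γ →* W.Kˣ) (G : Set (GVar W Γ)) (X : ι → GVar W Γ)
    (D : ∀ i, (X i).X.Cycles) (Z : GVar W Γ) : Prop where
  galois : ∀ A ∈ G, IsGaloisVar χ A
  prod : ClosedUnderProducts G
  mem : ∀ i, X i ∈ G
  mem_base : Z ∈ G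
  transIrred : ∀ i, TransIrred (X i) (D i)

end Run7.h190.EV
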