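import Mathlib
import Pool.Agent.V11219.LocStd
import Pool.Agent.V11219.BstMain
import Pool.Agent.Run7.h190.EV.Defs
import Pool.Agent.Run7.h190.EV.Step

/-!
# The standard conjectures for products with powers, if the Lie algebras are full
-/

open CategoryTheory AlgebraicGeometry Finset

set_option linter.unusedSectionVars false

universe u

namespace Run7.h190.EV

open Pool.Agent.TH125.Gal Pool.Agent.TH118.SG Pool.Agent.V11219.IsoF Pool.Agent.V11219.Loc
open Pool.Agent.H914 Pool.Agent.H914.VarClass Pool.Agent.H914.VarClass.Obj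
  Pool.Agent.H914.WeilCohomology Pool.Agent.H281R3.HT Pool.Agent.W552 Pool.Agent.H447

variable {k : Type u} [Field k] {𝒱 : VarClass k} {ops : CycleOps 𝒱}
  {W : WeilCohomology.{u, 0} ops} {Γ : Type} [Group Γ] {χ : Γ →* W.Kˣ} {G : Set (GVar W Γ)}

/-- The conditions on the polarized variety `A` relative to `B`, for powers up to `n + 1`. -/
structure SplitN (A : GVar W Γ) (D : A.X.Cycles) (B : GVar W Γ) (n : ℕ) : Prop where
  pol : IsPolarization W A.X D
  middle : transcendental W A.X ≤ W.gr A.X A.X.dim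
  one_ne : (1 : W.H A.X) ≠ 0
  tgt : ∀ (s : SB W A.X) (m : ℕ), m ≤ n →
    ∀ (c : W.H ((nest ops m fun _ => ⟨A.X, D⟩).X.prod B.X)),
    Pool.Agent.W552.AS W _ c → c ∈ Tgt (P := ⟨A.X, D⟩) s m B.X

section

variable {A B : GVar W Γ} {D : A.X.Cycles} {n : ℕ}

/-- **The algebraic classes on a product.** -/
theorem tgt_of_fullE (hG : GaloisClass χ G) (hA : A ∈ G) (hB : B ∈ G)
    (hmid : transcendental W A.X ≤ W.gr A.X A.X.dim) (hDX : HomEqNum W A.X)
    (hfull : FullE (P := ⟨A.X, D⟩) χ (isGalois (hG.galois A hA)) B.act)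
    (hn : Even A.X.dim → n + 1 < transRank W A.X)
    (s : SB W A.X) (m : ℕ) (hm : m ≤ n)
    (c : W.H ((nest ops m fun _ => ⟨A.X, D⟩).X.prod B.X)) (hc : Pool.Agent.W552.AS W _ c) :
    c ∈ Tgt (P := ⟨A.X, D⟩) s m B.X := by
  obtain ⟨υ, hυ, hP⟩ := exists_pow_act hG hA hB D m
  obtain ⟨b, hb⟩ := exists_monoBasis (ops := ops) (⟨A.X, D⟩ : Polarized 𝒱) s.e m
  have hgal := (hG.galois _ hυ)
  refine Pool.Agent.W552.AS.ind (p := fun c => c ∈ Tgt (P := ⟨A.X, D⟩) s m B.X) ?_ ?_ hc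
  · intro j c hc
    obtain ⟨Δ, hΔ, h1⟩ := hgal.cl_fix j c hc
    exact mem_TgtE (P := ⟨A.X, D⟩) hb hDX hmid (isGalois (hG.galois A hA)) hP
      (fun h => lt_of_le_of_lt (Nat.add_le_add_right hm 1) (hn h)) hfull hΔ h1
  · intro x y hx hy
    exact Submodule.add_mem _ hx hy

theorem SplitN.homEqNum (h : SplitN A D B n) : HomEqNum W A.X := homEqNum_of_pol h.pol

/-- positivity on the powers -/
theorem SplitN.fp_nest (h : SplitN A D B n) (hB1 : (1 : W.H B.X) ≠ 0) :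
    ∃ g, Fp W (nest ops n fun _ => ⟨A.X, D⟩).X (nest ops n fun _ => ⟨A.X, D⟩).D g := by
  obtain ⟨f, F, hls⟩ := exists_Fp h.pol.div h.pol.hard h.pol.lefschetz h.pol.hodge
  obtain ⟨s⟩ := exists_SB h.homEqNum
  have key : ∀ m ≤ n, ∀ c, Pool.Agent.W552.AS W (nest ops m fun _ => ⟨A.X, D⟩).X c → c ∈
      Submodule.span W.K {c | ∃ S i, Mq s (prj ops m fun _ => ⟨A.X, D⟩) S i c} := by
    intro m hm c hc
    exact mq_of_fst (P := ⟨A.X, D⟩) hB1 (h.tgt s m hm _ (hc.map (fst _ B.X)))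
  exact Pool.Agent.TH125.Gal.fp_nest (P := ⟨A.X, D⟩) F hls h.pol.hard h.pol.lefschetz h.homEqNum
    h.middle s h.one_ne n (fun hn => key 1 hn) (key n le_rfl)

/-- **The conjecture D for products with powers.** -/
theorem SplitN.homEqNum_prod (h : SplitN A D B n) (hDB : HomEqNum W B.X) :
    HomEqNum W ((nest ops n fun _ => ⟨A.X, D⟩).X.prod B.X) := by
  by_cases hB1 : (1 : W.H B.X) = 0
  · intro j _ z _ _
    rw [← one_mul (W.cl _ z), ← map_one (W.map (snd _ B.X)), hB1, map_zero, zero_mul]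
  · obtain ⟨g, F⟩ := h.fp_nest hB1
    obtain ⟨s⟩ := exists_SB h.homEqNum
    exact Pool.Agent.TH125.Gal.homEqNum_prod F
      (fun c hc => tgt_lspan h.homEqNum h.middle (h.tgt s n le_rfl c hc)) hDB

/-- **Positivity for products with powers.** -/
theorem SplitN.fp_prod (h : SplitN A D B n) {E : B.X.Cycles}
    (hE : ∃ g, Fp W B.X E g) :
    ∃ g, Fp W ((nest ops n fun _ => ⟨A.X, D⟩).prod ops ⟨B.X, E⟩).X
      ((nest ops n fun _ => ⟨A.X, D⟩).prod ops ⟨B.X, E⟩).D g := by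
  obtain ⟨g', F'⟩ := hE
  by_cases hB1 : (1 : W.H B.X) = 0
  · obtain ⟨f, F, hls⟩ := exists_Fp h.pol.div h.pol.hard h.pol.lefschetz h.pol.hodge
    obtain ⟨g, l, hFg, hSg, -⟩ := exists_nest (ops := ops) n (fun _ => (⟨A.X, D⟩ : Polarized 𝒱))
      (fun _ => f) (fun _ => F.fr) (fun _ => F.sy) (fun _ => (exists_HB W A.X).some)
    refine ⟨_, hFg.prod F'.fr, hSg.prod hFg F'.fr F'.sy, fun x _ hx0 => absurd ?_ hx0⟩
    have h1 : (1 : W.H ((nest ops n fun _ => (⟨A.X, D⟩ : Polarized 𝒱)).X.prod B.X)) = 0 := by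
      rw [← map_one (W.map (snd _ B.X)), hB1, map_zero]
    exact (one_mul x).symm.trans ((congrArg (· * x) h1).trans (zero_mul x))
  · obtain ⟨g, F⟩ := h.fp_nest hB1
    obtain ⟨s⟩ := exists_SB h.homEqNum
    exact ⟨_, F.prod F' (fun c hc => tgt_lspan h.homEqNum h.middle (h.tgt s n le_rfl c hc))⟩

/-- The algebraic cycles on a product split. -/
theorem SplitN.clSplit (h : SplitN A D B n) (hB1 : (1 : W.H B.X) ≠ 0) :
    Pool.Agent.TH132.A.ClSplit W (nest ops n fun _ => (⟨A.X, D⟩ : Polarized 𝒱)).X B.X := by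
  obtain ⟨g, F⟩ := h.fp_nest hB1
  obtain ⟨s⟩ := exists_SB h.homEqNum
  refine Pool.Agent.TH132.A.clSplit_of_tens fun z hz => Pool.Agent.TH132.A.mem_tens F.hodge.2 hz ?_
  exact lspan_le (tgt_lspan h.homEqNum h.middle (h.tgt s n le_rfl _ hz))

theorem SplitN.nest_one_ne (h : SplitN A D B n) :
    (1 : W.H (nest ops n fun _ => (⟨A.X, D⟩ : Polarized 𝒱)).X) ≠ 0 := by
  obtain ⟨x, hx⟩ := exists_tr h.one_ne
  have h2 : W.tr (nest ops n fun _ => (⟨A.X, D⟩ : Polarized 𝒱)).X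
      (mono (prj ops n fun _ => (⟨A.X, D⟩ : Polarized 𝒱)) fun _ => x) ≠ 0 := by
    rw [tr_mono]
    exact pow_ne_zero _ hx
  intro h0
  apply h2
  rw [← one_mul (mono _ _), h0, zero_mul, map_zero]

theorem SplitN.nest_hard (h : SplitN A D B n) (m : ℕ) :
    (nest ops m fun _ => (⟨A.X, D⟩ : Polarized 𝒱)).X.IsCyc 1
      (nest ops m fun _ => (⟨A.X, D⟩ : Polarized 𝒱)).D ∧
    HardLefschetz W (nest ops m fun _ => (⟨A.X, D⟩ : Polarized 𝒱)).X
      (nest ops m fun _ => (⟨A.X, D⟩ : Polarized 𝒱)).D := by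
  induction m with
  | zero => exact ⟨h.pol.div, h.pol.hard⟩
  | succ m ih =>
    exact ⟨SmVar.IsCyc.add (ops.pull_mem _ h.pol.div) (ops.pull_mem _ ih.1),
      hardLefschetz_prod h.pol.div ih.1 h.pol.hard ih.2⟩

/-- **The conjecture A for products with powers.** -/
theorem SplitN.lefschetzA_iff (h : SplitN A D B n) {E : B.X.Cycles}
    (hE : B.X.IsCyc 1 E) (hHL : HardLefschetz W B.X E) :
    LefschetzA W ((nest ops n fun _ => (⟨A.X, D⟩ : Polarized 𝒱)).prod ops ⟨B.X, E⟩).X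
      ((nest ops n fun _ => (⟨A.X, D⟩ : Polarized 𝒱)).prod ops ⟨B.X, E⟩).D ↔
      LefschetzA W B.X E := by
  by_cases hB1 : (1 : W.H B.X) = 0
  · refine iff_of_true (lefschetzA_of_zero ?_ _) (lefschetzA_of_zero hB1 _)
    have h1 : (1 : W.H ((nest ops n fun _ => (⟨A.X, D⟩ : Polarized 𝒱)).X.prod B.X)) = 0 := by
      rw [← map_one (W.map (snd _ B.X)), hB1, map_zero]
    exact h1
  · obtain ⟨g, F⟩ := h.fp_nest hB1
    obtain ⟨hP, hPL⟩ := h.nest_hard n
    refine Pool.Agent.TH132.A.lefschetzA_prod_iff (h.clSplit hB1) hP hE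
      (SmVar.IsCyc.add (ops.pull_mem _ hP) (ops.pull_mem _ hE)) ?_ hPL hHL
      (lefschetzA_of_D hP hPL F.hodge.2) h.nest_one_ne
    show W.cl _ (ops.pull _ _ + ops.pull _ _) = _
    rw [map_add, W.cl_pull, W.cl_pull]

/-- **The conjecture A for products with powers and all divisors.** -/
theorem SplitN.lefAll_iff (h : SplitN A D B n) :
    LefAll W ((nest ops n fun _ => (⟨A.X, D⟩ : Polarized 𝒱)).X.prod B.X) ↔ LefAll W B.X := by
  by_cases hB1 : (1 : W.H B.X) = 0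
  · refine iff_of_true (fun _ _ _ => lefschetzA_of_zero ?_ _)
      (fun _ _ _ => lefschetzA_of_zero hB1 _)
    have h1 : (1 : W.H ((nest ops n fun _ => (⟨A.X, D⟩ : Polarized 𝒱)).X.prod B.X)) = 0 := by
      rw [← map_one (W.map (snd _ B.X)), hB1, map_zero]
    exact h1
  have hP1 := h.nest_one_ne
  obtain ⟨g, F⟩ := h.fp_nest hB1
  have hS := h.clSplit hB1
  constructor
  · intro h1 E hE hHL
    obtain ⟨hP, hPL⟩ := h.nest_hard n
    exact (h.lefschetzA_iff hE hHL).1 (h1 _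
      (SmVar.IsCyc.add (ops.pull_mem _ hP) (ops.pull_mem _ hE))
      (hardLefschetz_prod hP hE hPL hHL))
  · intro h1 C hC hHL
    obtain ⟨D', E', hD', hE', hDE⟩ := Pool.Agent.TH132.A.div_split hS hC
    have h2 := Pool.Agent.TH132.A.hl_left hD' hE' hDE hHL hB1
    have h3 := Pool.Agent.TH132.A.hl_right hE' hD' hDE hHL hP1
    exact (Pool.Agent.TH132.A.lefschetzA_prod_iff hS hD' hE' hC hDE h2 h3
      (lefschetzA_of_D hD' h2 F.hodge.2) hP1).2 (h1 E' hE' h3)

end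

variable {ι : Type} {X : ι → GVar W Γ} {D : ∀ i, (X i).X.Cycles} {Z : GVar W Γ}

theorem PolarSystem.galoisClass (h : PolarSystem χ G X D Z) : GaloisClass χ G where
  galois := h.galois
  prod := fun A hA B hB => by
    obtain ⟨υ, hυ, hG⟩ := h.prod A hA B hB
    exact ⟨_, hG, IsProdVar.mk υ hυ.1 hυ.2⟩

/-- The Lie algebras of `X i` are full relative to all varieties on which the elements of `Γ` act
trivially, or with eigenvalues in `Λ`, if they do so for `Z` and the other `X j`. -/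
def FullFor (χ : Γ →* W.Kˣ) (X : ι → GVar W Γ) (Z : GVar W Γ) (i : ι) : Prop :=
  (∃ t : W.H (X i).X, t ≠ 0) ∧
  ∀ (hG : Pool.Agent.TH125.Gal.IsGalois W χ (X i).X (X i).act) (Y : 𝒱.Obj)
    (υ : Γ →* (W.H Y ≃ₐ[W.K] W.H Y)),
    (∀ g, (∀ j, j ≠ i → TrivAct (X j).act g) → TrivAct Z.act g → υ g = 1) →
    (∀ (Λ : Subgroup W.Kˣ) g, (∀ j, j ≠ i → EigenvaluesIn Λ (X j).act g) →
      EigenvaluesIn Λ Z.act g → EigA Λ (υ g)) →
    FullE (P := ⟨(X i).X, 0⟩) χ hG υ

/-- the conditions for one step -/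
theorem PolarSystem.split [IsAlgClosed W.K] (h : PolarSystem χ G X D Z)
    (hF : ∀ i, FullFor χ X Z i) {a : ι × ℕ} {Y : 𝒱.Obj}
    {υ : Γ →* (W.H Y ≃ₐ[W.K] W.H Y)} (hY : (⟨Y, υ⟩ : GVar W Γ) ∈ G)
    {L : List (ι × ℕ)} (hL : a.1 ∉ L.map Prod.fst)
    (hn : Even (X a.1).X.dim → a.2 + 1 < transRank W (X a.1).X)
    (hυ : ∀ g, (∀ a ∈ L, TrivAct (X a.1).act g) → TrivAct Z.act g → υ g = 1)
    (hυe : ∀ (Λ : Subgroup W.Kˣ) g, (∀ a ∈ L, EigenvaluesIn Λ (X a.1).act g) →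
        EigenvaluesIn Λ Z.act g → EigA Λ (υ g)) :
    SplitN (X a.1) (D a.1) ⟨Y, υ⟩ a.2 := by
  have hne : ∀ b ∈ L, b.1 ≠ a.1 := fun b hb h0 => hL (List.mem_map.2 ⟨b, hb, h0⟩)
  have hpol := (h.transIrred a.1).polarization
  have hmid := (h.transIrred a.1).middle
  have hDX := homEqNum_of_pol hpol
  have hone : ∀ t : W.H (X a.1).X, t ≠ 0 → (1 : W.H (X a.1).X) ≠ 0 := by
    intro t ht h3
    apply ht
    rw [← one_mul t, h3, zero_mul]
  obtain ⟨⟨t, ht⟩, hfull⟩ := hF a.1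
  have hGal := isGalois (h.galoisClass.galois _ (h.mem a.1))
  have hfull' := hfull hGal Y υ (fun g h1 h2 => hυ g (fun b hb => h1 b.1 (hne b hb)) h2)
    (fun Λ g h1 h2 => hυe Λ g (fun b hb => h1 b.1 (hne b hb)) h2)
  exact ⟨hpol, hmid, hone t ht, fun s m hm c hc =>
    tgt_of_fullE (A := X a.1) (D := D a.1) (B := ⟨Y, υ⟩) h.galoisClass (h.mem a.1) hY hmid hDX
      hfull' hn s m hm c hc⟩

/-- **The conjecture D.** -/
theorem homEqNum_tower [IsAlgClosed W.K] (h : PolarSystem χ G X D Z)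
    (hF : ∀ i, FullFor χ X Z i) (E : Z.X.Cycles)
    (L : List (ι × ℕ)) (hL : Admissible X L) :
    HomEqNum W (nodalTower X D Z E L).X ↔ HomEqNum W Z.X := by
  rw [nodalTower, tower_eq]
  obtain ⟨hL, hn⟩ := hL
  induction L with
  | nil => exact Iff.rfl
  | cons a L ih =>
    rw [List.map_cons, List.nodup_cons] at hL
    obtain ⟨υ, hυ, hυ', hυe⟩ := exists_tower_act' (D := D) h.galoisClass h.mem h.mem_base E L
    have hN := h.split hF (a := a) hυ hL.1 (hn a List.mem_cons_self) hυ' hυe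
    rw [← ih hL.2 fun b hb => hn b (List.mem_cons_of_mem _ hb)]
    constructor
    · intro h1
      obtain ⟨x, hx⟩ := exists_tr hN.one_ne
      have h2 : W.tr (nest ops a.2 fun _ => (⟨(X a.1).X, D a.1⟩ : Polarized 𝒱)).X
          (mono (prj ops a.2 fun _ => (⟨(X a.1).X, D a.1⟩ : Polarized 𝒱)) fun _ => x) ≠ 0 := by
        rw [tr_mono]
        exact pow_ne_zero _ hx
      exact homEqNum_factor h2 h1
    · intro h1
      exact hN.homEqNum_prod h1

/-- **The conjecture of Hodge type.** -/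
theorem hodge_tower [IsAlgClosed W.K] (h : PolarSystem χ G X D Z)
    (hF : ∀ i, FullFor χ X Z i) {E : Z.X.Cycles}
    (hE : IsPolarization W Z.X E) (L : List (ι × ℕ)) (hL : Admissible X L) :
    HodgeType W (nodalTower X D Z E L).X (nodalTower X D Z E L).D ∧
      HomEqNum W (nodalTower X D Z E L).X := by
  rw [nodalTower, tower_eq]
  obtain ⟨hL, hn⟩ := hL
  have key : ∃ g, Fp W (tower' ops (fun i => ⟨(X i).X, D i⟩) ⟨Z.X, E⟩ L).X
      (tower' ops (fun i => ⟨(X i).X, D i⟩) ⟨Z.X, E⟩ L).D g := by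
    induction L with
    | nil =>
      obtain ⟨g, hg, _⟩ := exists_Fp hE.div hE.hard hE.lefschetz hE.hodge
      exact ⟨g, hg⟩
    | cons a L ih =>
      rw [List.map_cons, List.nodup_cons] at hL
      obtain ⟨υ, hυ, hυ', hυe⟩ := exists_tower_act' (D := D) h.galoisClass h.mem h.mem_base E L
      exact (h.split hF (a := a) hυ hL.1 (hn a List.mem_cons_self) hυ' hυe).fp_prod
        (ih hL.2 fun b hb => hn b (List.mem_cons_of_mem _ hb))
  obtain ⟨g, F⟩ := key
  exact F.hodge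

/-- **The conjecture A for towers and all divisors.** -/
theorem lefAll_tower [IsAlgClosed W.K] (h : PolarSystem χ G X D Z)
    (hF : ∀ i, FullFor χ X Z i) (E : Z.X.Cycles)
    (L : List (ι × ℕ)) (hL : Admissible X L) :
    LefAll W (nodalTower X D Z E L).X ↔ LefAll W Z.X := by
  rw [nodalTower, tower_eq]
  obtain ⟨hL, hn⟩ := hL
  induction L with
  | nil => exact Iff.rfl
  | cons a L ih =>
    rw [List.map_cons, List.nodup_cons] at hL
    obtain ⟨υ, hυ, hυ', hυe⟩ := exists_tower_act' (D := D) h.galoisClass h.mem h.mem_base E L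
    have hN := h.split hF (a := a) hυ hL.1 (hn a List.mem_cons_self) hυ' hυe
    rw [← ih hL.2 fun b hb => hn b (List.mem_cons_of_mem _ hb)]
    exact hN.lefAll_iff

/-- **The standard conjectures B and A.** -/
theorem towerBA [IsAlgClosed W.K] (h : PolarSystem χ G X D Z)
    (hF : ∀ i, FullFor χ X Z i) (E : Z.X.Cycles)
    (L : List (ι × ℕ)) (hL : Admissible X L) :
    (HomEqNum W Z.X → ∀ (V : 𝒱.Obj) (g : (nodalTower X D Z E L).X ⟶ V.prod V),
        Pool.Agent.V11219.Bst.Dominant W g →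
        ∀ A : V.Cycles, V.IsCyc 1 A → HardLefschetz W V A → LefschetzB W V A) ∧
    ((∀ C, (nodalTower X D Z E L).X.IsCyc 1 C → HardLefschetz W (nodalTower X D Z E L).X C →
        LefschetzA W (nodalTower X D Z E L).X C) ↔
      ∀ B, Z.X.IsCyc 1 B → HardLefschetz W Z.X B → LefschetzA W Z.X B) :=
  ⟨fun hZ _ _ hg _ hA hHL => Pool.Agent.V11219.Bst.lefschetzB_of_homEqNum hA hHL
      (Pool.Agent.V11219.Bst.homEqNum_of_dominant hg ((homEqNum_tower h hF E L hL).2 hZ)),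
    lefAll_tower h hF E L hL⟩

end Run7.h190.EV
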