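import Pool.Agent.Run7.h190.EV.Full

/-!
# Unipotent elements with one Jordan block of length three: the orthogonal Lie algebra
-/

open Finset Function

set_option linter.unusedSectionVars false

namespace Run7.h190.EV

open Pool.Agent.TH125.Gal

universe u v w x

variable {K : Type u} [Field K] [CharZero K] {T : Type v} [AddCommGroup T] [Module K T]
  {E : Type w} [AddCommGroup E] [Module K E] {S : Type} [Fintype S] [DecidableEq S]
  {G : Type x} [Group G] {B : T →ₗ[K] T →ₗ[K] K} {ρ : G →* (T →ₗ[K] T)} {σ : G →* (E →ₗ[K] E)}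
  {μ : G → K}

/-- **The logarithm.** -/
theorem log_mem (hB : ∀ g x y, B (ρ g x) (ρ g y) = μ g * B x y) {g : G} (hμ : μ g = 1)
    (hσ : σ g = 1) {D : T →ₗ[K] T} (hD : ∀ x, ρ g x = x + D x) (h3 : ∀ x, D (D (D x)) = 0) :
    D - (2⁻¹ : K) • (D ∘ₗ D) ∈ LL S B ρ σ := by
  set N : T →ₗ[K] T := D - (2⁻¹ : K) • (D ∘ₗ D) with hN
  have hNx : ∀ x, N x = D x - (2⁻¹ : K) • D (D x) := fun x => rfl
  have hNN : ∀ x, N (N x) = D (D x) := by
    intro x
    rw [hNx, hNx, map_sub, map_smul, h3]
    simp [h3]
  have hNNN : ∀ x, N (N (N x)) = 0 := by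
    intro x
    rw [hNN, hNx, map_sub, map_smul, h3, smul_zero, sub_zero, h3]
  have hpow : ∀ (n : ℕ) x, ρ (g ^ n) x = x + (n : K) • N x + ((n : K) ^ 2) • ((2⁻¹ : K) • N (N x)) := by
    intro n
    induction n with
    | zero =>
      intro x
      rw [pow_zero, map_one]
      simp
    | succ n ih =>
      intro x
      have h1 : ρ g x = x + N x + (2⁻¹ : K) • N (N x) := by
        rw [hD, hNN, hNx]
        module
      rw [pow_succ, map_mul, Module.End.mul_apply, h1, ih]
      simp only [map_add, map_smul, hNNN, smul_zero, add_zero]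
      push_cast
      module
  have hiso : ∀ x y, B (ρ g x) (ρ g y) = B x y := fun x y => by rw [hB, hμ, one_mul]
  have rel : ∀ x y, B (D x) y + B x (D y) + B (D x) (D y) = 0 := by
    intro x y
    have h1 := hiso x y
    rw [hD, hD, map_add, map_add, LinearMap.add_apply, LinearMap.add_apply] at h1
    linear_combination h1
  refine ⟨fun x y => ?_, fun h hh v => ?_⟩
  · have r1 := rel x y
    have r2 := rel (D x) y
    have r3 := rel x (D y)
    have r4 := rel (D x) (D y)
    have r5 := rel (D (D x)) (D y)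
    rw [h3, map_zero, LinearMap.zero_apply, LinearMap.zero_apply, zero_add, add_zero] at r5
    rw [hNx, hNx]
    simp only [map_sub, map_smul, LinearMap.sub_apply, LinearMap.smul_apply, smul_eq_mul]
    linear_combination r1 - 2⁻¹ * r2 - 2⁻¹ * r3 + 2⁻¹ * r4 - 2⁻¹ * r5
  · obtain ⟨Δ, hΔ, h1⟩ := hh
    obtain ⟨n, hn, hgn⟩ := exists_pow hΔ g
    have h2 : {x : K | h (fun j => v j + x • (N (v j)) + x ^ 2 • ((2⁻¹ : K) • N (N (v j)))) =
      h (fun j => v j + x • (0 : T) + x ^ 2 • (0 : T))}.Infinite := by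
      refine Set.infinite_of_injective_forall_mem (f := fun l : ℕ => ((n * l : ℕ) : K)) ?_ ?_
      · intro l l' hl
        have h3 : ((n * l : ℕ) : K) = ((n * l' : ℕ) : K) := hl
        have h4 : n * l = n * l' := Nat.cast_injective h3
        exact Nat.eq_of_mul_eq_mul_left hn h4
      · intro l
        have h3 : g ^ (n * l) ∈ Δ := by
          rw [pow_mul]
          exact Subgroup.pow_mem _ hgn l
        have h4 := h1 _ h3 v
        rw [map_pow σ, hσ, one_pow] at h4
        change h _ = h _
        simp only [smul_zero, add_zero]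
        have h5 : (fun j => ρ (g ^ (n * l)) (v j)) =
            fun j => v j + ((n * l : ℕ) : K) • N (v j) +
              (((n * l : ℕ) : K) ^ 2) • ((2⁻¹ : K) • N (N (v j))) := by
          funext j
          rw [hpow]
        rw [h5] at h4
        exact h4
    have h3 := deriv_eq h v (fun j => N (v j)) (fun j => (2⁻¹ : K) • N (N (v j))) v (fun _ => 0)
      (fun _ => 0) h2
    have h4 : ∀ j, h (update v j (0 : T)) = 0 := fun j =>
      h.map_coord_zero j (update_self _ _ _)
    rw [Finset.sum_congr rfl fun j _ => h4 j, Finset.sum_const_zero] at h3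
    exact h3

/-- A skew operator of rank two whose square is not zero and whose cube is zero. -/
theorem exists_plane [Module.Finite K T] (hsy : ∀ x y, B x y = B y x) {N : T →ₗ[K] T}
    (hnd : ∀ x, (∀ y, B x y = 0) → x = 0)
    (hsk : ∀ x y, B (N x) y + B x (N y) = 0) (h3 : ∀ x, N (N (N x)) = 0)
    (h2 : ∃ x, N (N x) ≠ 0) (hr : Module.finrank K (LinearMap.range N) ≤ 2) :
    ∃ p w : T, p ≠ 0 ∧ B p p = 0 ∧ B p w = 0 ∧ B w w ≠ 0 ∧ ∃ c : K, wg B p w = c • N := by
  obtain ⟨x, hx⟩ := h2
  have hsk' : ∀ x y, B x (N y) = - B (N x) y := fun x y =>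
    eq_neg_of_add_eq_zero_right (hsk x y)
  have hww : B (N x) (N x) = - B (N (N x)) x := by
    rw [hsk' (N x) x]
  have hpw : B (N (N x)) (N x) = 0 := by
    have h := hsk' (N (N x)) x
    rw [h3, map_zero, LinearMap.zero_apply, neg_zero] at h
    exact h
  have hpp : B (N (N x)) (N (N x)) = 0 := by
    have h := hsk' (N (N x)) (N x)
    rw [h3, map_zero, LinearMap.zero_apply, neg_zero] at h
    exact h
  -- the range
  have hli : LinearIndependent K ![(⟨N x, x, rfl⟩ : LinearMap.range N), ⟨N (N x), N x, rfl⟩] := by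
    rw [LinearIndependent.pair_iff]
    intro s t hst
    have h4 : s • N x + t • N (N x) = 0 := congrArg Subtype.val hst
    have h5 := congrArg N h4
    rw [map_add, map_smul, map_smul, h3, smul_zero, add_zero, map_zero] at h5
    have h6 : s = 0 := (smul_eq_zero.1 h5).resolve_right hx
    rw [h6, zero_smul, zero_add] at h4
    exact ⟨h6, (smul_eq_zero.1 h4).resolve_right hx⟩
  have hcard : Module.finrank K (LinearMap.range N) = 2 := by
    refine le_antisymm hr ?_
    have := hli.fintype_card_le_finrank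
    simpa using this
  have hspan := hli.span_eq_top_of_card_eq_finrank (by simp [hcard])
  have hex : ∀ y, ∃ f g : K, N y = f • N x + g • N (N x) := by
    intro y
    have h4 : (⟨N y, y, rfl⟩ : LinearMap.range N) ∈ Submodule.span K
        (Set.range ![(⟨N x, x, rfl⟩ : LinearMap.range N), ⟨N (N x), N x, rfl⟩]) := by
      rw [hspan]
      exact Submodule.mem_top
    rw [Matrix.range_cons, Matrix.range_cons, Matrix.range_empty, Set.union_empty,
      Set.singleton_union, Submodule.mem_span_pair] at h4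
    obtain ⟨f, g, h⟩ := h4
    exact ⟨f, g, (congrArg Subtype.val h).symm⟩
  have key : ∀ y, (∃ g : K, B (N x) (N x) • N y =
      (-(B (N (N x)) y)) • N x + (B (N x) y) • N (N x)) ∧ (B (N x) (N x) = 0 →
        B (N (N x)) y = 0) := by
    intro y
    obtain ⟨f, g, hfg⟩ := hex y
    have e1 : f * B (N x) (N x) = -(B (N (N x)) y) := by
      have h4 := hsk y (N x)
      rw [hfg, map_add, map_smul, map_smul, LinearMap.add_apply, LinearMap.smul_apply,
        LinearMap.smul_apply, smul_eq_mul, smul_eq_mul, hpw, hsy y] at h4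
      linear_combination h4
    have e2 : g * B (N x) (N x) = B (N x) y := by
      have h4 := hsk y x
      have h5 : B (N x) x = 0 := by
        have h6 := hsk x x
        rw [hsy x (N x)] at h6
        have h7 : (2 : K) * B (N x) x = 0 := by linear_combination h6
        exact (mul_eq_zero.1 h7).resolve_left two_ne_zero
      rw [hfg, map_add, map_smul, map_smul, LinearMap.add_apply, LinearMap.smul_apply,
        LinearMap.smul_apply, smul_eq_mul, smul_eq_mul, h5, hsy y] at h4
      have h6 : B (N (N x)) x = - B (N x) (N x) := by rw [hww, neg_neg]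
      rw [h6] at h4
      linear_combination -h4
    refine ⟨⟨g, ?_⟩, fun h => ?_⟩
    · rw [← e1, ← e2, hfg]
      module
    · rw [h, mul_zero] at e1
      exact neg_eq_zero.1 e1.symm
  have hw : B (N x) (N x) ≠ 0 := fun h => hx (hnd _ fun y => (key y).2 h)
  refine ⟨N (N x), N x, hx, hpp, hpw, hw, B (N x) (N x), ?_⟩
  apply LinearMap.ext
  intro y
  obtain ⟨g, hg⟩ := (key y).1
  rw [LinearMap.smul_apply, hg, wg_apply]
  module

/-- **The orthogonal Lie algebra from a unipotent element with one Jordan block of length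
three.** -/
theorem three_full [Module.Finite K T] (hsy : ∀ x y, B x y = B y x)
    (hnd : ∀ x, (∀ y, B x y = 0) → x = 0) (hμ : ∀ g, μ g ≠ 0)
    (hB : ∀ g x y, B (ρ g x) (ρ g y) = μ g * B x y) (hSI : SI ρ) {g : G} (hμg : μ g = 1)
    (hσ : σ g = 1) {D : T →ₗ[K] T} (hD : ∀ x, ρ g x = x + D x) (h3 : ∀ x, D (D (D x)) = 0)
    (h2 : ∃ x, D (D x) ≠ 0) (hr : Module.finrank K (LinearMap.range D) ≤ 2) (a b : T) :
    wg B a b ∈ LL S B ρ σ := by
  have hN := log_mem (S := S) hB hμg hσ hD h3
  set N : T →ₗ[K] T := D - (2⁻¹ : K) • (D ∘ₗ D) with hNd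
  have hNx : ∀ x, N x = D x - (2⁻¹ : K) • D (D x) := fun x => rfl
  have hNN : ∀ x, N (N x) = D (D x) := by
    intro x
    rw [hNx, hNx, map_sub, map_smul, h3]
    simp [h3]
  have hNNN : ∀ x, N (N (N x)) = 0 := by
    intro x
    rw [hNN, hNx, map_sub, map_smul, h3, smul_zero, sub_zero, h3]
  have hrN : Module.finrank K (LinearMap.range N) ≤ 2 := by
    refine le_trans (Submodule.finrank_mono ?_) hr
    rintro _ ⟨x, rfl⟩
    exact ⟨x - (2⁻¹ : K) • D x, by rw [map_sub, map_smul, hNx]⟩
  obtain ⟨p, w, hp, hpp, hpw, hw, c, hc⟩ := exists_plane hsy hnd hN.1 hNNN (by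
    obtain ⟨x, hx⟩ := h2
    exact ⟨x, by rwa [hNN]⟩) hrN
  refine full_of_plane hsy hμ hB hSI hnd hp hpp hpw hw ?_ a b
  rw [hc]
  exact Submodule.smul_mem _ _ hN

end Run7.h190.EV
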