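import Pool.Agent.V11219.LocDefs

/-!
# Unipotent elements of type three: definition
-/

namespace Run7.h190.EV

open Pool.Agent.V11219.Loc

variable {K : Type} [Field K] {A : Type} [Ring A] [Algebra K A] {Γ : Type} [Group Γ]

/-- The element `g` acts on `T` by a unipotent map with one Jordan block of length three and
otherwise trivially: `(g - 1) ^ 3 = 0`, `(g - 1) ^ 2 ≠ 0` and the rank of `g - 1` is at most two. -/
def TypeThree (T : Submodule K A) (ρ : Γ →* (A ≃ₐ[K] A)) (g : Γ) : Prop :=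
  (∀ t ∈ T, dif ρ g (dif ρ g (dif ρ g t)) = 0) ∧ (∃ t ∈ T, dif ρ g (dif ρ g t) ≠ 0) ∧
    Module.finrank K (T.map (dif ρ g)) ≤ 2

end Run7.h190.EV
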