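import Mathlib
import Pool.Agent.Run7.h190.EV.Core
import Pool.Agent.Run7.h190.EV.Three
import Pool.Agent.Run7.h190.EV.Std
import Pool.Agent.Run7.h190.EV.Three2

/-!
# The full Lie algebras for the local conditions
-/

open CategoryTheory AlgebraicGeometry Finset

set_option linter.unusedSectionVars false

universe u

namespace Run7.h190.EV

open Pool.Agent.TH125.Gal Pool.Agent.TH118.SG Pool.Agent.V11219.IsoF Pool.Agent.V11219.Loc
open Pool.Agent.V11219.Quad
open Pool.Agent.H914 Pool.Agent.H914.VarClass Pool.Agent.H914.VarClass.Obj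
  Pool.Agent.H914.WeilCohomology Pool.Agent.H281R3.HT Pool.Agent.W552 Pool.Agent.H447

variable {k : Type u} [Field k] {𝒱 : VarClass k} {ops : CycleOps 𝒱}
  {W : WeilCohomology.{u, 0} ops} {Γ : Type} [Group Γ] {χ : Γ →* W.Kˣ} {G : Set (GVar W Γ)}

section

variable {P : Polarized 𝒱} {ρ : Γ →* (W.H P.X ≃ₐ[W.K] W.H P.X)} {Z : 𝒱.Obj}
  {τ : Γ →* (W.H Z ≃ₐ[W.K] W.H Z)}

theorem form_symm (hmid : transcendental W P.X ≤ W.gr P.X P.X.dim) (heven : Even P.X.dim)
    (x y : transcendental W P.X) : rform W P.X (transcendental W P.X) x y =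
      rform W P.X (transcendental W P.X) y x := by
  rw [rform_apply, rform_apply, trans_symm hmid x.2 y.2, heven.neg_one_pow]
  simp

/-- Finite order, in even dimension. -/
theorem fullE_fin [IsAlgClosed W.K] (hDX : HomEqNum W P.X)
    (hmid : transcendental W P.X ≤ W.gr P.X P.X.dim)
    (hG : IsGalois W χ P.X ρ) (heven : Even P.X.dim)
    (hirr : StronglyIrreducible ρ (transcendental W P.X)) {g : Γ} (hχ : χ g = 1)
    {Λ : Subgroup W.Kˣ} (hfin : ∃ k : ℕ, 0 < k ∧ ∀ t ∈ transcendental W P.X, ρ (g ^ k) t = t)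
    {α : W.K} (hdim : α * α = 1 ∨ 5 ≤ Module.finrank W.K (transcendental W P.X))
    (hiso : SimpleIsolated Λ (fun a => Module.finrank W.K (transcendental W P.X ⊓
      Module.End.eigenspace (ρ g).toLinearMap a : Submodule W.K (W.H P.X))) α)
    (hF : Hyperbolic (transcendental W P.X) ρ) (hτ : EigA Λ (τ g)) :
    FullE χ hG τ := by
  refine fullE_of_even hG heven fun S _ _ σ hσ x y => ?_
  obtain ⟨k, hk, hgk⟩ := hfin
  obtain ⟨F, u, hu, v, hv, hu0, hv0, al, be, hFu, hFv, hab⟩ := hF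
  have hγ : rhoT hG g ^ k = 1 := by
    rw [← map_pow]
    apply LinearMap.ext
    intro x
    exact Subtype.ext (hgk x x.2)
  have h1 : (fun a => Module.finrank W.K (transcendental W P.X ⊓
      Module.End.eigenspace (ρ g).toLinearMap a : Submodule W.K (W.H P.X))) =
      fun a => Module.finrank W.K (Module.End.eigenspace (rhoT hG g) a) := by
    funext a
    rw [finrank_eigT hG g a, eigT_eq]
  rw [h1] at hiso
  refine fin_full (χ := mult χ P.X.dim) (γ := g) (Λ := Λ) (form_symm hmid heven)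
    (trans_nondeg hDX) (fun g a b => ?_) (SI_rhoT hG hirr) ?_ ?_ hk hγ hiso.1 hdim hiso.2 F
    (u := ⟨u, hu⟩) (v := ⟨v, hv⟩) (fun h => hu0 (congrArg Subtype.val h))
    (fun h => hv0 (congrArg Subtype.val h)) (Subtype.ext hFu) (Subtype.ext hFv) hab x y
  · rw [mult_apply]
    exact bil_act hG g a b
  · rw [mult_apply, hχ, Units.val_one, one_pow]
  · intro a z hz hz1
    rw [hσ g hχ] at hz1
    exact hτ a z hz hz1

/-- Unipotent elements with one Jordan block of length three, in even dimension. -/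
theorem fullE_three (hDX : HomEqNum W P.X)
    (hmid : transcendental W P.X ≤ W.gr P.X P.X.dim)
    (hG : IsGalois W χ P.X ρ) (heven : Even P.X.dim)
    (hirr : StronglyIrreducible ρ (transcendental W P.X)) {g : Γ} (hχ : χ g = 1)
    (hg : TypeThree (transcendental W P.X) ρ g) (hτ : τ g = 1) :
    FullE χ hG τ := by
  refine fullE_of_even hG heven fun S _ _ σ hσ x y => ?_
  obtain ⟨h3, ⟨t, ht, ht0⟩, hr⟩ := hg
  have hD : ∀ x : transcendental W P.X,
      (((rhoT hG g - 1 : Module.End W.K (transcendental W P.X)) x : transcendental W P.X) :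
      W.H P.X) = Pool.Agent.V11219.Loc.dif ρ g x := fun x => rfl
  refine three_full (μ := fun g => mult χ P.X.dim g) (g := g)
    (D := (rhoT hG g - 1 : Module.End W.K (transcendental W P.X))) (form_symm hmid heven)
    (trans_nondeg hDX) (fun g => ?_) (fun g a b => ?_) (SI_rhoT hG hirr) ?_ ?_ (fun x => ?_)
    (fun x => ?_) ⟨⟨t, ht⟩, fun h => ?_⟩ ?_ x y
  · rw [mult_apply]
    exact pow_ne_zero _ (Units.ne_zero _)
  · rw [mult_apply]
    exact bil_act hG g a b
  · rw [mult_apply, hχ, Units.val_one, one_pow]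
  · apply LinearMap.ext
    intro z
    rw [hσ g hχ, hτ]
    rfl
  · rw [LinearMap.sub_apply, Module.End.one_apply]
    abel
  · apply Subtype.ext
    rw [hD, hD, hD]
    exact h3 x x.2
  · apply ht0
    have h4 := congrArg Subtype.val h
    rw [hD, hD] at h4
    exact h4
  · have hmap : (LinearMap.range (rhoT hG g - 1 : Module.End W.K (transcendental W P.X))).map
        (transcendental W P.X).subtype = (transcendental W P.X).map (Pool.Agent.V11219.Loc.dif ρ g) := by
      ext z
      constructor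
      · rintro ⟨_, ⟨x, rfl⟩, rfl⟩
        exact ⟨x, x.2, rfl⟩
      · rintro ⟨x, hx, rfl⟩
        exact ⟨_, ⟨⟨x, hx⟩, rfl⟩, rfl⟩
    rw [← Submodule.finrank_map_subtype_eq, hmap]
    exact hr

end

variable {ι : Type} {X : ι → GVar W Γ} {D : ∀ i, (X i).X.Cycles} {Z : GVar W Γ}

/-- Odd dimension. -/
theorem fullFor_odd [IsAlgClosed W.K] {i : ι} (h : TransIrred (X i) (D i))
    (hodd : Odd (X i).X.dim)
    (hc : LocalCondition χ (transcendental W (X i).X) (X i).act (trivialOn X Z i)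
      (eigenvaluesIn X Z i)) : FullFor χ X Z i := by
  have hmid := h.middle
  have hirr := h.irreducible
  have hDX := homEqNum_of_pol h.polarization
  rcases hc with ⟨g, hgM, hg⟩ | ⟨hF, Λ, g, hgP, hχ, hg⟩
  · have hg' : CoprimeDefects (transcendental W (X i).X) (X i).act
        {g | χ g = 1 ∧ g ∈ trivialOn X Z i} g := hg
    refine ⟨exists_ne_of_coprime (P := ⟨(X i).X, 0⟩) hg', fun hG Y υ hυ _ => ?_⟩
    exact fullE_of_odd (P := ⟨(X i).X, 0⟩) hG hodd (fullT_quad (P := ⟨(X i).X, 0⟩) hDX hmid hG hodd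
      hirr (M := {g | χ g = 1 ∧ g ∈ trivialOn X Z i}) (fun g hg => hg.1)
      (fun g hg => hυ g hg.2.2 hg.2.1) hgM hg')
  · have hg' : IsolatedAct Λ (transcendental W (X i).X) (X i).act g := isolatedAct_of hg
    refine ⟨?_, fun hG Y υ _ hυe => ?_⟩
    · obtain ⟨F, x, hx, y, hy, hx0, -⟩ := hF
      exact ⟨x, hx0⟩
    · exact fullE_of_odd (P := ⟨(X i).X, 0⟩) hG hodd (fullT_iso (P := ⟨(X i).X, 0⟩) hDX hmid hG hodd
        hirr hχ hg' hF (hυe Λ g hgP.2 hgP.1))

/-- Even dimension, finite order. -/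
theorem fullFor_fin [IsAlgClosed W.K] {i : ι} (h : TransIrred (X i) (D i))
    (heven : Even (X i).X.dim)
    (hc : FiniteCondition χ (transcendental W (X i).X) (X i).act (eigenvaluesIn X Z i)) :
    FullFor χ X Z i := by
  obtain ⟨hF, Λ, g, hgP, hχ, hfin, α, hα, hiso⟩ := hc
  refine ⟨?_, fun hG Y υ _ hυe => ?_⟩
  · obtain ⟨F, x, hx, y, hy, hx0, -⟩ := hF
    exact ⟨x, hx0⟩
  · exact fullE_fin (P := ⟨(X i).X, 0⟩) (homEqNum_of_pol h.polarization) h.middle hG heven
      h.irreducible hχ hfin hα hiso hF (hυe Λ g hgP.2 hgP.1)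

/-- Even dimension, unipotent. -/
theorem fullFor_three {i : ι} (h : TransIrred (X i) (D i)) (heven : Even (X i).X.dim)
    (hc : ∃ g ∈ trivialOn X Z i, χ g = 1 ∧ TypeThree (transcendental W (X i).X) (X i).act g) :
    FullFor χ X Z i := by
  obtain ⟨g, hgP, hχ, hg⟩ := hc
  refine ⟨?_, fun hG Y υ hυ _ => ?_⟩
  · obtain ⟨-, ⟨t, ht, ht0⟩, -⟩ := hg
    refine ⟨t, fun h => ht0 ?_⟩
    rw [h, map_zero, map_zero]
  · exact fullE_three (P := ⟨(X i).X, 0⟩) (homEqNum_of_pol h.polarization) h.middle hG heven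
      h.irreducible hχ hg (hυ g hgP.2 hgP.1)

theorem FiniteSystem.polar (h : FiniteSystem χ G X D Z) : PolarSystem χ G X D Z where
  galois := h.galois
  prod := h.prod
  mem := h.mem
  mem_base := h.mem_base
  transIrred := fun i => ⟨h.polarization i, (h.cond i).1, (h.cond i).2.1⟩

/-- **The standard conjectures B and A for systems with finite inertia.** -/
theorem finiteBA [IsAlgClosed W.K] (h : FiniteSystem χ G X D Z) (E : Z.X.Cycles)
    (L : List (ι × ℕ)) (hL : Bounded X L) :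
    (HomEqNum W Z.X → ∀ (V : 𝒱.Obj) (g : (nodalTower X D Z E L).X ⟶ V.prod V),
        Pool.Agent.V11219.Bst.Dominant W g →
        ∀ A : V.Cycles, V.IsCyc 1 A → HardLefschetz W V A → LefschetzB W V A) ∧
    ((∀ C, (nodalTower X D Z E L).X.IsCyc 1 C → HardLefschetz W (nodalTower X D Z E L).X C →
        LefschetzA W (nodalTower X D Z E L).X C) ↔
      ∀ B, Z.X.IsCyc 1 B → HardLefschetz W Z.X B → LefschetzA W Z.X B) :=
  towerBA h.polar (fun i => (Nat.even_or_odd (X i).X.dim).elim
    (fun hi => fullFor_fin (h.polar.transIrred i) hi ((h.cond i).2.2.1 hi))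
    (fun hi => fullFor_odd (h.polar.transIrred i) hi ((h.cond i).2.2.2 hi))) E L hL

end Run7.h190.EV
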