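import Pool.Agent.Run7.h190.EV.Fam
import Pool.Agent.TH132.A.Hodge

/-!
# The conjecture of Hodge type for products with powers
-/

open CategoryTheory AlgebraicGeometry Finset

set_option linter.unusedSectionVars false

universe u

namespace Run7.h190.EV

open Pool.Agent Pool.Agent.TH125.Gal Pool.Agent.TH118.SG Pool.Agent.V11219.IsoF
  Pool.Agent.V11219.Loc
open Pool.Agent.H914 Pool.Agent.H914.VarClass Pool.Agent.H914.VarClass.Obj
  Pool.Agent.H914.WeilCohomology Pool.Agent.H281R3.HT Pool.Agent.W552 Pool.Agent.H447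

variable {k : Type u} [Field k] {𝒱 : VarClass k} {ops : CycleOps 𝒱}
  {W : WeilCohomology.{u, 0} ops} {Γ : Type} [Group Γ] {χ : Γ →* W.Kˣ} {G : Set (GVar W Γ)}

theorem hodge_zero {B : 𝒱.Obj} (h : (1 : W.H B) = 0) (E : B.Cycles) : HodgeType W B E := by
  intro j _ z _ _ hz0
  exact absurd (by rw [← one_mul (W.cl B z), h, zero_mul]) hz0

/-- **The conjecture of Hodge type, one step.** -/
theorem SplitN.hodge_iff {A B : GVar W Γ} {D : A.X.Cycles} {n : ℕ} (h : SplitN A D B n)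
    {E : B.X.Cycles} (hE : B.X.IsCyc 1 E) (hHL : HardLefschetz W B.X E) :
    HodgeType W ((nest ops n fun _ => (⟨A.X, D⟩ : Polarized 𝒱)).prod ops ⟨B.X, E⟩).X
      ((nest ops n fun _ => (⟨A.X, D⟩ : Polarized 𝒱)).prod ops ⟨B.X, E⟩).D ↔
      HodgeType W B.X E := by
  by_cases hB1 : (1 : W.H B.X) = 0
  · refine iff_of_true (hodge_zero ?_ _) (hodge_zero hB1 _)
    have h1 : (1 : W.H ((nest ops n fun _ => (⟨A.X, D⟩ : Polarized 𝒱)).X.prod B.X)) = 0 := by
      rw [← map_one (W.map (snd _ B.X)), hB1, map_zero]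
    exact h1
  · obtain ⟨g, F⟩ := h.fp_nest hB1
    obtain ⟨s⟩ := exists_SB h.homEqNum
    obtain ⟨hP, hPL⟩ := h.nest_hard n
    obtain ⟨f₁, F₁, hf⟩ := TH132.A.exists_lw hP hPL
    obtain ⟨g₁, F', hg⟩ := TH132.A.exists_lw hE hHL
    have hst : TH132.A.Stable W _ f₁ := TH132.A.stable_of_lefschetzA F₁.hD F₁.sl2
      (lefschetzA_of_D F₁.hD hPL F.hodge.2)
    exact ⟨fun h3 => TH132.A.hodge_of_prod F₁ F' F.hodge.1 h.nest_one_ne h3,
      fun h3 => TH132.A.hodge_prod_of (fun z hz => TH132.A.mem_tens F.hodge.2 hz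
        (lspan_le (tgt_lspan h.homEqNum h.middle (h.tgt s n le_rfl _ hz)))) F₁ hf hPL hst
        F.hodge.1 F' hg h3⟩

variable {ι : Type} {X : ι → GVar W Γ} {D : ∀ i, (X i).X.Cycles} {Z : GVar W Γ}

/-- the divisor on the tower has the hard Lefschetz property -/
theorem PolarSystem.tower_hard (h : PolarSystem χ G X D Z) {E : Z.X.Cycles}
    (hE : Z.X.IsCyc 1 E) (hHL : HardLefschetz W Z.X E) (L : List (ι × ℕ)) :
    (tower' ops (fun i => ⟨(X i).X, D i⟩) ⟨Z.X, E⟩ L).X.IsCyc 1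
      (tower' ops (fun i => ⟨(X i).X, D i⟩) ⟨Z.X, E⟩ L).D ∧
    HardLefschetz W (tower' ops (fun i => ⟨(X i).X, D i⟩) ⟨Z.X, E⟩ L).X
      (tower' ops (fun i => ⟨(X i).X, D i⟩) ⟨Z.X, E⟩ L).D := by
  induction L with
  | nil => exact ⟨hE, hHL⟩
  | cons a L ih =>
    have hpol := (h.transIrred a.1).polarization
    have hN : ∀ m : ℕ, (nest ops m fun _ => (⟨(X a.1).X, D a.1⟩ : Polarized 𝒱)).X.IsCyc 1
        (nest ops m fun _ => (⟨(X a.1).X, D a.1⟩ : Polarized 𝒱)).D ∧
        HardLefschetz W (nest ops m fun _ => (⟨(X a.1).X, D a.1⟩ : Polarized 𝒱)).X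
        (nest ops m fun _ => (⟨(X a.1).X, D a.1⟩ : Polarized 𝒱)).D := by
      intro m
      induction m with
      | zero => exact ⟨hpol.div, hpol.hard⟩
      | succ m ih =>
        exact ⟨SmVar.IsCyc.add (ops.pull_mem _ hpol.div) (ops.pull_mem _ ih.1),
          hardLefschetz_prod hpol.div ih.1 hpol.hard ih.2⟩
    obtain ⟨h1, h2⟩ := hN a.2
    exact ⟨SmVar.IsCyc.add (ops.pull_mem _ h1) (ops.pull_mem _ ih.1),
      hardLefschetz_prod h1 ih.1 h2 ih.2⟩

/-- **The conjecture of Hodge type for towers.** -/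
theorem hodge_iff_tower [IsAlgClosed W.K] (h : PolarSystem χ G X D Z)
    (hF : ∀ i, FullFor χ X Z i) {E : Z.X.Cycles} (hE : Z.X.IsCyc 1 E)
    (hHL : HardLefschetz W Z.X E) (L : List (ι × ℕ)) (hL : Admissible X L) :
    HodgeType W (nodalTower X D Z E L).X (nodalTower X D Z E L).D ↔ HodgeType W Z.X E := by
  rw [nodalTower, tower_eq]
  obtain ⟨hL, hn⟩ := hL
  induction L with
  | nil => exact Iff.rfl
  | cons a L ih =>
    rw [List.map_cons, List.nodup_cons] at hL
    obtain ⟨υ, hυ, hυ', hυe⟩ := exists_tower_act' (D := D) h.galoisClass h.mem h.mem_base E L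
    have hN := h.split hF (a := a) hυ hL.1 (hn a List.mem_cons_self) hυ' hυe
    have h1 := h.tower_hard hE hHL L
    rw [← ih hL.2 fun b hb => hn b (List.mem_cons_of_mem _ hb)]
    exact hN.hodge_iff h1.1 h1.2

/-- **The conjecture of Hodge type for systems with finite inertia.** -/
theorem finiteHodge [IsAlgClosed W.K] (h : FiniteSystem χ G X D Z) {E : Z.X.Cycles}
    (hE : Z.X.IsCyc 1 E) (hHL : HardLefschetz W Z.X E)
    (L : List (ι × ℕ)) (hL : Bounded X L) :
    HodgeType W (nodalTower X D Z E L).X (nodalTower X D Z E L).D ↔ HodgeType W Z.X E :=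
  hodge_iff_tower h.polar (fun i => (Nat.even_or_odd (X i).X.dim).elim
    (fun hi => fullFor_fin (h.polar.transIrred i) hi ((h.cond i).2.2.1 hi))
    (fun hi => fullFor_odd (h.polar.transIrred i) hi ((h.cond i).2.2.2 hi))) hE hHL L hL

/-- **The conjecture D for systems with finite inertia.** -/
theorem finiteD [IsAlgClosed W.K] (h : FiniteSystem χ G X D Z) (E : Z.X.Cycles)
    (L : List (ι × ℕ)) (hL : Bounded X L) :
    HomEqNum W (nodalTower X D Z E L).X ↔ HomEqNum W Z.X :=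
  homEqNum_tower h.polar (fun i => (Nat.even_or_odd (X i).X.dim).elim
    (fun hi => fullFor_fin (h.polar.transIrred i) hi ((h.cond i).2.2.1 hi))
    (fun hi => fullFor_odd (h.polar.transIrred i) hi ((h.cond i).2.2.2 hi))) E L hL

end Run7.h190.EV
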