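import Pool.Agent.V11219.LocDefs

/-!
# Polarized varieties of both parities with finite inertia: definitions
-/

open CategoryTheory AlgebraicGeometry

universe u

namespace Run7.h190.EV

open Pool.Agent.TH125.Gal Pool.Agent.V11219.Loc

section Alg

variable {K : Type} [Field K] {A : Type} [Ring A] [Algebra K A] {Γ : Type} [Group Γ]

/-- The number `α` is a simple eigenvalue, where `m a` is the multiplicity of the eigenvalue `a` of an
operator, and it is *isolated* with respect to a group `Λ` of numbers: for all eigenvalues `β`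
different from `α` and `α⁻¹` the quotient `β / α` is not in `Λ`, and it is the quotient `β' / α'` only
of the pair `α' = α`, `β' = β`, of the dual pair `α' = β⁻¹`, `β' = α⁻¹`, and of pairs with `α'` simple and
`β' = α'⁻¹`. -/
def SimpleIsolated (Λ : Subgroup Kˣ) (m : K → ℕ) (α : K) : Prop :=
  m α = 1 ∧ ∀ β, m β ≠ 0 → β ≠ α → β * α ≠ 1 → (∀ l ∈ Λ, (l : K) ≠ β * α⁻¹) ∧
    ∀ α', m α' ≠ 0 → m (α' * (β * α⁻¹)) ≠ 0 → α' = α ∨ α' * β = 1 ∨
      (m α' = 1 ∧ α' * (α' * (β * α⁻¹)) = 1)

/-- The local condition in even dimension: some element is hyperbolic on `T`; and some element `g`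
with `χ g = 1`, in the set `P Λ`, acts on `T` with finite order and has a simple eigenvalue `α` on `T`
which is isolated with respect to `Λ`; and `α = ± 1`, or the dimension of `T` is at least five. -/
def FiniteCondition (χ : Γ →* Kˣ) (T : Submodule K A) (ρ : Γ →* (A ≃ₐ[K] A))
    (P : Subgroup Kˣ → Set Γ) : Prop :=
  Hyperbolic T ρ ∧ ∃ Λ, ∃ g ∈ P Λ, χ g = 1 ∧ (∃ k : ℕ, 0 < k ∧ ∀ t ∈ T, ρ (g ^ k) t = t) ∧
    ∃ α : K, (α * α = 1 ∨ 5 ≤ Module.finrank K T) ∧ SimpleIsolated Λ
      (fun a => Module.finrank K (T ⊓ Module.End.eigenspace (ρ g).toLinearMap a : Submodule K A)) α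

/-- The local condition for a variety of dimension `n`, where `T` is the transcendental cohomology and
`M` the cohomology in the middle degree: `T` is contained in `M` and irreducible under all subgroups
of finite index, `FiniteCondition` holds if `n` is even, and `LocalCondition` if `n` is odd. -/
def ParityCondition (n : ℕ) (χ : Γ →* Kˣ) (T M : Submodule K A) (ρ : Γ →* (A ≃ₐ[K] A))
    (N : Set Γ) (P : Subgroup Kˣ → Set Γ) : Prop :=
  T ≤ M ∧ IrredAct ρ T ∧
    (Even n → FiniteCondition χ T ρ P) ∧ (Odd n → LocalCondition χ T ρ N P)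

/-- If `m` is even, `n` is less than the dimension of `T`. -/
def EvenBound (m n : ℕ) (T : Submodule K A) : Prop := Even m → n < Module.finrank K T

end Alg

open Pool.Agent.H914 Pool.Agent.H914.VarClass Pool.Agent.H914.VarClass.Obj
  Pool.Agent.H914.WeilCohomology Pool.Agent.H281R3.HT

variable {k : Type u} [Field k] {𝒱 : VarClass k} {ops : CycleOps 𝒱}
  {W : WeilCohomology.{u, 0} ops} {Γ : Type} [Group Γ] {ι : Type}

/-- The group acts on the cohomology of the members of the class `G` like a Galois group, and `G`
is closed under products. The varieties `Z` and `Y i` are members of `G`; the divisors `D i` on `Y i`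
satisfy the hard Lefschetz theorem and the standard conjectures of Lefschetz and of Hodge type; and
every `Y i` satisfies `ParityCondition`: its transcendental cohomology is in the middle degree and
irreducible under all subgroups of finite index, and there are elements as in `FiniteCondition` or
`LocalCondition`. -/
structure FiniteSystem (χ : Γ →* W.Kˣ) (G : Set (GVar W Γ)) (Y : ι → GVar W Γ)
    (D : ∀ i, (Y i).X.Cycles) (Z : GVar W Γ) : Prop where
  galois : ∀ A ∈ G, IsGaloisVar χ A
  prod : ClosedUnderProducts G
  mem : ∀ i, Y i ∈ G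
  mem_base : Z ∈ G
  polarization : ∀ i, IsPolarization W (Y i).X (D i)
  cond : ∀ i, ParityCondition (Y i).X.dim χ (transcendental W (Y i).X)
    (W.gr (Y i).X (Y i).X.dim) (Y i).act (trivialOn Y Z i) (eigenvaluesIn Y Z i)

/-- The indices in the list are pairwise different, and `n + 1` is less than the dimension of the
transcendental cohomology of `Y i` for the pairs `(i, n)` for which `Y i` has even dimension. -/
def Bounded (Y : ι → GVar W Γ) (L : List (ι × ℕ)) : Prop :=
  (L.map Prod.fst).Nodup ∧
    ∀ a ∈ L, EvenBound (Y a.1).X.dim (a.2 + 1) (transcendental W (Y a.1).X)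

end Run7.h190.EV
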