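import Pool.Agent.Run7.h190.EV.TPub
import Pool.Agent.Run7.h306.TG2

/-!
# The equality of ranks
-/

open CategoryTheory AlgebraicGeometry Finset
open scoped TensorProduct

namespace Run7.h190.EV

open Pool.Agent.H914 Pool.Agent.H914.VarClass Pool.Agent.H914.VarClass.Obj
  Pool.Agent.H914.WeilCohomology Pool.Agent.TH125.Gal Run7.h306.TG

variable {k : Type} [Field k] {𝒱 : VarClass k} {ops : CycleOps 𝒱}
  {W : WeilCohomology.{0, 0} ops} {Γ : Type} [Group Γ] {χ : Γ →* W.Kˣ} {X : GVar W Γ}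

theorem intClasses_eq (X : 𝒱.Obj) (j : ℕ) : intClasses W X j = cycleGroup W X j := by
  apply le_antisymm
  · rw [intClasses, AddSubgroup.closure_le]
    exact fun a ha => ha
  · intro a ha
    exact AddSubgroup.subset_closure ha

theorem IntegralOps.toOps (h : IntegralOps W) : HasIntegralOperations W where
  products := fun X i j a b ha hb => by
    rw [← intClasses_eq] at ha hb ⊢
    exact (h X X (𝟙 X) i j a ha).1 b hb
  pullbacks := fun X Y f i a ha => by
    rw [← intClasses_eq] at ha ⊢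
    exact (h X Y f i i 0 (AddSubgroup.zero_mem _)).2.1 a ha
  pushforwards := fun X Y f i j a ha hij => by
    rw [← intClasses_eq] at ha ⊢
    exact (h X Y f i j a ha).2.2 hij

theorem mem_invSpace {Δ : Subgroup Γ} {j : ℕ} {H : Submodule W.K (W.H X.X)} {c : W.H X.X} :
    c ∈ invSpace χ X.act H Δ j ↔ c ∈ H ∧ ∀ g ∈ Δ, X.act g c = (χ g : W.K) ^ j • c := by
  rw [invSpace, Submodule.mem_inf, Submodule.mem_iInf]
  refine and_congr Iff.rfl (forall_congr' fun g => ?_)
  rw [Submodule.mem_iInf]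
  refine forall_congr' fun _ => ?_
  rw [Module.End.mem_eigenspace_iff]
  rfl

/-- The algebraic classes are a vector space over the rational numbers. -/
theorem alg_sum {j : ℕ} {ι : Type} (s : Finset ι) (f : ι → W.H X.X)
    (h : ∀ i ∈ s, f i ∈ algClasses W X.X j) : ∑ i ∈ s, f i ∈ algClasses W X.X j := by
  classical
  induction s using Finset.induction_on with
  | empty =>
    rw [Finset.sum_empty]
    exact ⟨0, SmVar.IsCyc.zero _ _, map_zero _⟩
  | insert a s ha ih =>
    rw [Finset.sum_insert ha]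
    obtain ⟨z, hz, hz'⟩ := h a (Finset.mem_insert_self _ _)
    obtain ⟨w, hw, hw'⟩ := ih fun i hi => h i (Finset.mem_insert_of_mem hi)
    exact ⟨z + w, hz.add hw, by rw [map_add, hz', hw']⟩

/-- **Averages.** -/
theorem mem_span_inv (hG : IsGaloisVar χ X) {Δ : Subgroup Γ} {j : ℕ} {H : Submodule W.K (W.H X.X)}
    (hH : ∀ a ∈ algClasses W X.X j, a ∈ H) {c : W.H X.X}
    (hc : ∀ g ∈ Δ, X.act g c = (χ g : W.K) ^ j • c)
    (hs : c ∈ Submodule.span W.K (algClasses W X.X j)) :
    c ∈ Submodule.span W.K ((cycleGroup W X.X j ⊓ (invSpace χ X.act H Δ j).toAddSubgroup :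
      AddSubgroup (W.H X.X)) : Set (W.H X.X)) := by
  classical
  obtain ⟨n, f, a, rfl⟩ := Submodule.mem_span_set'.1 hs
  have h1 : ∀ i, ∃ N : Subgroup Γ, N.FiniteIndex ∧
      ∀ g ∈ N, X.act g (a i) = (χ g : W.K) ^ j • (a i : W.H X.X) := fun i =>
    hG.cl_fix j _ (a i).2
  choose N hN hN' using h1
  let M : Subgroup Γ := ⨅ i, N i
  have hM : M.FiniteIndex := Subgroup.finiteIndex_iInf hN
  let M' : Subgroup Δ := M.subgroupOf Δ
  have hM' : M'.FiniteIndex := inferInstance
  have hfin : Finite (Δ ⧸ M') := Subgroup.finite_quotient_of_finiteIndex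
  have : Fintype (Δ ⧸ M') := Fintype.ofFinite _
  -- the twisted action
  let σ : Γ → W.H X.X → W.H X.X := fun g x => ((χ g : W.K) ^ j)⁻¹ • X.act g x
  have hσ : ∀ g x, σ g x = ((χ g : W.K) ^ j)⁻¹ • X.act g x := fun g x => rfl
  have hne : ∀ g : Γ, (χ g : W.K) ^ j ≠ 0 := fun g => pow_ne_zero _ (Units.ne_zero _)
  have hσmul : ∀ g h x, σ (g * h) x = σ g (σ h x) := by
    intro g h x
    rw [hσ, hσ, hσ, map_smul, smul_smul, map_mul, map_mul, Units.val_mul, mul_pow, mul_inv]
    rfl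
  have hσfix : ∀ g x, X.act g x = (χ g : W.K) ^ j • x → σ g x = x := by
    intro g x h
    rw [hσ, h, smul_smul, inv_mul_cancel₀ (hne g), one_smul]
  have hfixσ : ∀ g x, σ g x = x → X.act g x = (χ g : W.K) ^ j • x := by
    intro g x h
    rw [hσ] at h
    conv_rhs => rw [← h]
    rw [smul_smul, mul_inv_cancel₀ (hne g), one_smul]
  have hσalg : ∀ g, ∀ x ∈ algClasses W X.X j, σ g x ∈ algClasses W X.X j := by
    intro g x hx
    obtain ⟨x', hx', h⟩ := hG.cl_act g j x hx
    rw [hσ, h, smul_smul, inv_mul_cancel₀ (hne g), one_smul]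
    exact hx'
  have hσlin : ∀ g (y : Fin n → W.H X.X), σ g (∑ i, f i • y i) = ∑ i, f i • σ g (y i) := by
    intro g y
    rw [hσ, map_sum, Finset.smul_sum]
    refine Finset.sum_congr rfl fun i _ => ?_
    rw [map_smul, hσ, smul_comm]
  -- the function on the cosets
  have hq : ∀ i, ∀ g h : Δ, (QuotientGroup.leftRel M') g h →
      σ g (a i) = σ h (a i) := by
    intro i g h hgh
    rw [QuotientGroup.leftRel_apply] at hgh
    have h2 : (((g⁻¹ * h : Δ) : Γ)) ∈ M := hgh
    have h3 : ((h : Δ) : Γ) = (g : Γ) * ((g⁻¹ * h : Δ) : Γ) := by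
      push_cast
      rw [mul_inv_cancel_left]
    rw [h3, hσmul, hσfix _ _ (hN' i _ ((Subgroup.mem_iInf.1 h2) i))]
  let F : Fin n → (Δ ⧸ M') → W.H X.X := fun i =>
    Quotient.lift (fun g : Δ => σ g (a i)) (hq i)
  have hF : ∀ i (g : Δ), F i (QuotientGroup.mk g) = σ g (a i) := fun i g => rfl
  let m : ℕ := Fintype.card (Δ ⧸ M')
  have hm : (m : W.K) ≠ 0 := by
    have : 0 < m := Fintype.card_pos
    exact_mod_cast this.ne'
  let e : Fin n → W.H X.X := fun i => ∑ q, F i q
  -- the sums are algebraic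
  have he1 : ∀ i, e i ∈ algClasses W X.X j := by
    intro i
    refine alg_sum _ _ fun q _ => ?_
    induction q using QuotientGroup.induction_on with
    | H g =>
      rw [hF]
      exact hσalg _ _ (a i).2
  -- and invariant
  have he2 : ∀ i, ∀ h ∈ Δ, σ h (e i) = e i := by
    intro i h hh
    have h4 : σ h (e i) = ∑ q, σ h (F i q) := by
      rw [hσ, map_sum, Finset.smul_sum]
    rw [h4]
    refine Fintype.sum_equiv (MulAction.toPerm (⟨h, hh⟩ : Δ)) _ _ fun q => ?_
    induction q using QuotientGroup.induction_on with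
    | H g =>
      rw [hF, MulAction.toPerm_apply]
      have h5 : (⟨h, hh⟩ : Δ) • (QuotientGroup.mk g : Δ ⧸ M') =
          QuotientGroup.mk ((⟨h, hh⟩ : Δ) * g) := rfl
      rw [h5, hF, Subgroup.coe_mul, hσmul]
  -- the average of `c`
  have h6 : (m : W.K) • ∑ i, f i • (a i : W.H X.X) = ∑ i, f i • e i := by
    have h7 : ∀ q : Δ ⧸ M', ∑ i, f i • F i q = ∑ i, f i • (a i : W.H X.X) := by
      intro q
      induction q using QuotientGroup.induction_on with
      | H g =>
        have h8 := hσfix g _ (hc g g.2)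
        rw [hσlin] at h8
        exact h8
    have h9 : ∑ i, f i • e i = ∑ q : Δ ⧸ M', ∑ i, f i • F i q := by
      rw [Finset.sum_comm]
      refine Finset.sum_congr rfl fun i _ => ?_
      rw [Finset.smul_sum]
    rw [h9, Finset.sum_congr rfl fun q _ => h7 q, Finset.sum_const, Finset.card_univ,
      Nat.cast_smul_eq_nsmul]
  have h10 : ∑ i, f i • (a i : W.H X.X) = (m : W.K)⁻¹ • ∑ i, f i • e i := by
    rw [← h6, smul_smul, inv_mul_cancel₀ hm, one_smul]
  rw [h10]
  refine Submodule.smul_mem _ _ (Submodule.sum_mem _ fun i _ => Submodule.smul_mem _ _ ?_)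
  obtain ⟨N, hN0, hNe⟩ := exists_multiple (he1 i)
  have h11 : (N : W.K) • e i ∈ (cycleGroup W X.X j ⊓ (invSpace χ X.act H Δ j).toAddSubgroup :
      AddSubgroup (W.H X.X)) := by
    refine ⟨hNe, mem_invSpace.2 ⟨Submodule.smul_mem _ _ (hH _ (he1 i)), fun g hg => ?_⟩⟩
    rw [map_smul, hfixσ g _ (he2 i g hg), smul_comm]
  have h12 := Submodule.smul_mem (Submodule.span W.K ((cycleGroup W X.X j ⊓
    (invSpace χ X.act H Δ j).toAddSubgroup : AddSubgroup (W.H X.X)) : Set (W.H X.X)))
    ((N : W.K)⁻¹) (Submodule.subset_span h11)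
  rwa [smul_smul, inv_mul_cancel₀ (by exact_mod_cast hN0.ne'), one_smul] at h12

theorem torsionFree (B : AddSubgroup (W.H X.X)) : Module.IsTorsionFree ℤ B := by
  refine ⟨fun r hr a b hab => Subtype.ext ?_⟩
  have hr0 : r ≠ 0 := by
    rintro rfl
    exact one_ne_zero (hr.1 (by simp : (0 : ℤ) * 1 = 0 * 0))
  have h7 : r • (a : W.H X.X) = r • (b : W.H X.X) := congrArg Subtype.val hab
  have h8 : ∀ x : W.H X.X, r • x = (r : W.K) • x := fun x => (Int.cast_smul_eq_zsmul W.K r x).symm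
  rw [h8, h8] at h7
  exact smul_right_injective _ (show (r : W.K) ≠ 0 by exact_mod_cast hr0) h7

theorem finrank_eq {B : AddSubgroup (W.H X.X)} (h : IsRational W.K B) :
    Module.finrank ℤ B = Module.finrank W.K (Submodule.span W.K (B : Set (W.H X.X))) := by
  have := Module.Finite.iff_addGroup_fg.2 h.1
  have := torsionFree B
  have : Module.Free ℤ B := inferInstance
  rw [← range_naturalMap, LinearMap.finrank_range_of_inj h.2, Module.finrank_baseChange]

theorem rational_of_finrank {B : AddSubgroup (W.H X.X)} (h : AddGroup.FG B)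
    (h1 : Module.finrank ℤ B = Module.finrank W.K (Submodule.span W.K (B : Set (W.H X.X)))) :
    IsRational W.K B := by
  refine ⟨h, ?_⟩
  have := Module.Finite.iff_addGroup_fg.2 h
  have := torsionFree B
  have : Module.Free ℤ B := inferInstance
  rw [← range_naturalMap] at h1
  have h2 : Module.finrank W.K (W.K ⊗[ℤ] B) =
      Module.finrank W.K (LinearMap.range (naturalMap W.K B)) := by
    rw [Module.finrank_baseChange, h1]
  have h3 := (naturalMap W.K B).surjective_rangeRestrict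
  have h4 := (LinearMap.injective_iff_surjective_of_finrank_eq_finrank h2).2 h3
  intro x y hxy
  exact h4 (Subtype.ext hxy)

/-- **The two forms of the conjecture.** -/
theorem tateConj_iff (hG : IsGaloisVar χ X) :
    TateConj χ X ↔ Run7.h306.TG.TateConjecture χ X := by
  constructor
  · intro h j
    -- a subgroup with the largest space of invariants
    obtain ⟨Δ₀, hΔ₀, hmax⟩ : ∃ Δ₀ : Subgroup Γ, Δ₀.FiniteIndex ∧ ∀ Δ : Subgroup Γ, Δ.FiniteIndex →
        invSpace χ X.act (W.gr X.X (2 * j)) Δ j ≤ invSpace χ X.act (W.gr X.X (2 * j)) Δ₀ j := by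
      let P : ℕ → Prop := fun n => ∃ Δ : Subgroup Γ, Δ.FiniteIndex ∧
        Module.finrank W.K (invSpace χ X.act (W.gr X.X (2 * j)) Δ j) = n
      have hP : ∃ n, P n := ⟨_, ⊤, inferInstance, rfl⟩
      have hb : ∀ n, P n → n ≤ Module.finrank W.K (W.H X.X) := by
        rintro n ⟨Δ, -, rfl⟩
        exact Submodule.finrank_le _
      classical
      obtain ⟨n₀, hn₀⟩ := hP
      have h1 := Nat.findGreatest_spec (P := P) (hb n₀ hn₀) hn₀
      obtain ⟨Δ₀, hΔ₀, h2⟩ := h1
      refine ⟨Δ₀, hΔ₀, fun Δ hΔ => ?_⟩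
      have h3 : invSpace χ X.act (W.gr X.X (2 * j)) Δ₀ j ≤
          invSpace χ X.act (W.gr X.X (2 * j)) (Δ ⊓ Δ₀) j := by
        intro c hc
        rw [mem_invSpace] at hc ⊢
        exact ⟨hc.1, fun g hg => hc.2 g hg.2⟩
      have h4 : invSpace χ X.act (W.gr X.X (2 * j)) Δ j ≤
          invSpace χ X.act (W.gr X.X (2 * j)) (Δ ⊓ Δ₀) j := by
        intro c hc
        rw [mem_invSpace] at hc ⊢
        exact ⟨hc.1, fun g hg => hc.2 g hg.1⟩
      have h5 : P (Module.finrank W.K (invSpace χ X.act (W.gr X.X (2 * j)) (Δ ⊓ Δ₀) j)) :=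
        ⟨Δ ⊓ Δ₀, inferInstance, rfl⟩
      have h6 := Nat.le_findGreatest (hb _ h5) h5
      rw [← h2] at h6
      rw [Submodule.eq_of_le_of_finrank_le h3 h6]
      exact h4
    have hsub : ∀ a ∈ cycleGroup W X.X j, a ∈ invSpace χ X.act (W.gr X.X (2 * j)) Δ₀ j := by
      intro a ha
      obtain ⟨Δ, hΔ, h1⟩ := hG.cl_fix j a (cycleGroup_alg ha)
      exact hmax Δ hΔ (mem_invSpace.2 ⟨alg_gr (cycleGroup_alg ha), h1⟩)
    obtain ⟨h1, h2, h3⟩ := h Δ₀ hΔ₀ j _ rfl _ rfl
    have h4 : (intClasses W X.X j ⊓ (invSpace χ X.act (W.gr X.X (2 * j)) Δ₀ j).toAddSubgroup :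
        AddSubgroup (W.H X.X)) = cycleGroup W X.X j := by
      rw [intClasses_eq]
      exact inf_eq_left.2 hsub
    rw [h4] at h1 h2 h3
    rw [← h2] at h3
    have h5 := rational_of_finrank h1 h3
    refine ⟨h5.1, h5.2, fun c hc hΔ => ?_⟩
    obtain ⟨Δ, hΔ, h6⟩ := hΔ
    rw [range_naturalMap, h2]
    exact hmax Δ hΔ (mem_invSpace.2 ⟨hc, h6⟩)
  · intro hT Δ hΔ j V hV B hB
    subst hV
    subst hB
    rw [intClasses_eq]
    obtain ⟨h1, h2, h3⟩ := hT j
    have h4 : IsRational W.K ((cycleGroup W X.X j ⊓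
        (invSpace χ X.act (W.gr X.X (2 * j)) Δ j).toAddSubgroup : AddSubgroup (W.H X.X))) :=
      isRational_of_one LinearMap.id (B := cycleGroup W X.X j) (fun a ha => ha.1)
        (fun a _ h => h) ⟨h1, h2⟩
    have h5 : Submodule.span W.K ((cycleGroup W X.X j ⊓
        (invSpace χ X.act (W.gr X.X (2 * j)) Δ j).toAddSubgroup : AddSubgroup (W.H X.X)) :
          Set (W.H X.X)) = invSpace χ X.act (W.gr X.X (2 * j)) Δ j := by
      apply le_antisymm
      · rw [Submodule.span_le]
        intro a ha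
        exact ha.2
      · intro c hc
        have hc' := mem_invSpace.1 hc
        refine mem_span_inv hG (fun a ha => alg_gr ha) hc'.2 ?_
        have h6 := h3 c hc'.1 ⟨Δ, hΔ, hc'.2⟩
        rwa [range_naturalMap, span_cycleGroup] at h6
    refine ⟨h4.1, h5, ?_⟩
    rw [finrank_eq h4, h5]

end Run7.h190.EV
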