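import Pool.Agent.Run7.h190.EV.Pub
import Pool.Agent.V11219.BstDefs

/-!
# The Tate conjecture over finitely generated fields: definitions
-/

open CategoryTheory AlgebraicGeometry

namespace Run7.h190.EV

open Pool.Agent.TH125.Gal Pool.Agent.V11219.Loc

section Alg

variable {K : Type} [Field K] {A : Type} [Ring A] [Algebra K A] {Γ : Type} [Group Γ]

/-- The elements of the subspace `H` on which the subgroup `Δ` acts by `χ ^ j`. -/
def invSpace (χ : Γ →* Kˣ) (ρ : Γ →* (A ≃ₐ[K] A)) (H : Submodule K A) (Δ : Subgroup Γ) (j : ℕ) :
    Submodule K A :=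
  H ⊓ ⨅ g ∈ Δ, Module.End.eigenspace (ρ g).toLinearMap ((χ g : K) ^ j)

/-- For all subgroups `Δ` of finite index and all `j`: the group `B` of the elements of `C j` on which
`Δ` acts by `χ ^ j` is finitely generated, it spans the space of the elements of `gr (2 j)` on
which `Δ` acts by `χ ^ j`, and its rank is the dimension of this space. -/
def TateForm (χ : Γ →* Kˣ) (ρ : Γ →* (A ≃ₐ[K] A)) (gr : ℕ → Submodule K A)
    (C : ℕ → AddSubgroup A) : Prop :=
  ∀ Δ : Subgroup Γ, Δ.FiniteIndex → ∀ (j : ℕ) (V : Submodule K A), V = invSpace χ ρ (gr (2 * j)) Δ j →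
    ∀ B : AddSubgroup A, B = C j ⊓ V.toAddSubgroup →
      AddGroup.FG B ∧ Submodule.span K B = V ∧ Module.finrank ℤ B = Module.finrank K V

end Alg

open Pool.Agent.H914 Pool.Agent.H914.VarClass Pool.Agent.H914.VarClass.Obj
  Pool.Agent.H914.WeilCohomology

variable {k : Type} [Field k] {𝒱 : VarClass k} {ops : CycleOps 𝒱}
  {W : WeilCohomology.{0, 0} ops} {Γ : Type} [Group Γ] {ι : Type}

/-- The group `A^j(X)` of the classes of the cycles of codimension `j` with integral coefficients in the
cohomology. -/
def intClasses (W : WeilCohomology.{0, 0} ops) (X : 𝒱.Obj) (j : ℕ) : AddSubgroup (W.H X) :=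
  AddSubgroup.closure
    {a | ∃ z, X.IsCyc j z ∧ (∀ x, ∃ n : ℤ, X.V.coeff z x = n) ∧ W.cl X z = a}

/-- The products, pull-backs and push-forwards of classes of cycles with integral coefficients are such
classes. -/
def IntegralOps (W : WeilCohomology.{0, 0} ops) : Prop :=
  ∀ (X Y : 𝒱.Obj) (f : X ⟶ Y) (i j : ℕ), ∀ a ∈ intClasses W X i,
    (∀ b ∈ intClasses W X j, a * b ∈ intClasses W X (i + j)) ∧
    (∀ b ∈ intClasses W Y j, W.map f b ∈ intClasses W X j) ∧
    (i + Y.dim = j + X.dim → W.push f a ∈ intClasses W Y j)

/-- The Tate conjecture for `X` over all finite extensions of the ground field: for all subgroups `Δ` of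
finite index and all `j` the group of the elements of `A^j(X)` on which `Δ` acts by `χ ^ j` is finitely
generated, it spans the space of the elements of `H^(2j)(X)` on which `Δ` acts by `χ ^ j`, and its
rank is the dimension of this space. -/
def TateConj (χ : Γ →* W.Kˣ) (X : GVar W Γ) : Prop :=
  TateForm χ X.act (W.gr X.X) (intClasses W X.X)

/-- The group acts on the cohomology of `Z` and of the `Y i` like a Galois group; homological and
numerical equivalence coincide for the powers of the `Y i`; and every `Y i` satisfies `ParityCondition`: its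
transcendental cohomology is in the middle degree and irreducible under all subgroups of finite
index, and there are elements as in `FiniteCondition` or `LocalCondition`. -/
structure FiniteFamily (χ : Γ →* W.Kˣ) (Y : ι → GVar W Γ) (Z : GVar W Γ) : Prop where
  galois : ∀ i, IsGaloisVar χ (Y i)
  galois_base : IsGaloisVar χ Z
  homEqNum : ∀ i n, HomEqNum W (power ops (Y i).X n)
  cond : ∀ i, ParityCondition (Y i).X.dim χ (transcendental W (Y i).X)
    (W.gr (Y i).X (Y i).X.dim) (Y i).act (trivialOn Y Z i) (eigenvaluesIn Y Z i)

/-- `C` is the product of `A` and `B`, with an action compatible with the projections. -/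
def IsProd (A B C : GVar W Γ) : Prop := ∃ υ, ProdAct A B υ ∧ C = ⟨A.X.prod B.X, υ⟩

/-- `P` is the product of `n + 1` copies of `X`. -/
inductive IsPow (X : GVar W Γ) : ℕ → GVar W Γ → Prop
  | one : IsPow X 0 X
  | mul {n P Q} : IsPow X n P → IsProd X P Q → IsPow X (n + 1) Q

/-- The varieties `T = Y_1^(n_1) × (Y_2^(n_2) × ( ⋯ × Z))`, where the `Y_i` are pairwise different
members of the family (`S` is the set of the indices), where `n_i` is less than the dimension of the
transcendental cohomology of `Y_i` if the dimension of `Y_i` is even. -/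
inductive Twr (Y : ι → GVar W Γ) (Z : GVar W Γ) : Set ι → GVar W Γ → Prop
  | base : Twr Y Z ∅ Z
  | step {S T P U} (i : ι) (n : ℕ) : Twr Y Z S T → i ∉ S →
      EvenBound (Y i).X.dim (n + 1) (transcendental W (Y i).X) → IsPow (Y i) n P →
      IsProd P T U → Twr Y Z (insert i S) U

/-- `V` is an image of `T`: `Γ` acts on the cohomology of `V` like a Galois group, and there is an
equivariant dominant morphism from `T` to `V` (the class `1` is the direct image of the class of an
algebraic cycle). -/
def IsImageOf (χ : Γ →* W.Kˣ) (T V : GVar W Γ) : Prop :=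
  IsGaloisVar χ V ∧ ∃ g : T.X ⟶ V.X, Pool.Agent.V11219.Bst.Dominant W g ∧
    Intertwines (W.map g) V.act T.act

end Run7.h190.EV
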