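import Pool.Agent.Run7.h190.EV.Fam
import Pool.Agent.Run7.h190.EV.Rank

/-!
# The Tate conjecture for towers, with finite generation
-/

open CategoryTheory AlgebraicGeometry Finset

set_option linter.unusedSectionVars false

namespace Run7.h190.EV

open Pool.Agent Pool.Agent.TH125.Gal Pool.Agent.TH118.SG Pool.Agent.V11219.IsoF
  Pool.Agent.V11219.Loc Pool.Agent.V11219.Quad
open Pool.Agent.H914 Pool.Agent.H914.VarClass Pool.Agent.H914.VarClass.Obj
  Pool.Agent.H914.WeilCohomology Pool.Agent.H281R3.HT Pool.Agent.W552 Pool.Agent.H447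

variable {k : Type} [Field k] {𝒱 : VarClass k} {ops : CycleOps 𝒱}
  {W : WeilCohomology.{0, 0} ops} {Γ : Type} [Group Γ] {χ : Γ →* W.Kˣ}
  {ι : Type} {X : ι → GVar W Γ} {Z : GVar W Γ}

theorem isRational_zero {X : 𝒱.Obj} (h : (1 : W.H X) = 0) :
    Run7.h306.TG.IsRational W.K (Run7.h306.TG.intAll W X) := by
  refine Run7.h306.TG.isRational_of (R := Empty) (U := fun _ => W.H X) (fun i => i.elim)
    (B := fun i => i.elim) (fun i => i.elim) (fun a _ _ => ?_) (fun i => i.elim)
  rw [← one_mul a, h, zero_mul]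

theorem one_ne_power {X : 𝒱.Obj} (h : (1 : W.H X) ≠ 0) (n : ℕ) :
    (1 : W.H (power ops X n)) ≠ 0 := by
  obtain ⟨x, hx⟩ := exists_tr h
  have h2 : W.tr (nest ops n fun _ => (⟨X, 0⟩ : Polarized 𝒱)).X
      (mono (prj ops n fun _ => (⟨X, 0⟩ : Polarized 𝒱)) fun _ => x) ≠ 0 := by
    rw [tr_mono]
    exact pow_ne_zero _ hx
  intro h0
  apply h2
  have h3 : (1 : W.H (nest ops n fun _ => (⟨X, 0⟩ : Polarized 𝒱)).X) = 0 := h0
  rw [← one_mul (mono _ _), h3, zero_mul, map_zero]

theorem eig_tower [IsAlgClosed W.K] {S : Set ι} {Y : GVar W Γ} (hY : GTower X Z S Y)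
    {Λ : Subgroup W.Kˣ} {g : Γ} (hX : ∀ j ∈ S, EigenvaluesIn Λ (X j).act g)
    (hZ : EigenvaluesIn Λ Z.act g) : EigA Λ (Y.act g) := by
  induction hY with
  | base => exact fun a z hz h => hZ a ⟨z, hz, h⟩
  | step i n _ _ _ hP ih =>
    obtain ⟨υ, h1, h2⟩ := hP
    exact eig_pow (isPowAct h1 h2) (fun c z hz h => hX i (Set.mem_insert _ _) c ⟨z, hz, h⟩)
      (ih fun j hj => hX j (Set.mem_insert_of_mem _ hj))

/-- The classes of cycles are Tate classes. -/
def ClFix (χ : Γ →* W.Kˣ) (Y : GVar W Γ) : Prop :=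
  ∀ j, ∀ c ∈ algClasses W Y.X j, ∃ Δ : Subgroup Γ, Δ.FiniteIndex ∧
    ∀ g ∈ Δ, Y.act g c = (χ g : W.K) ^ j • c

/-- **The full Tate conjecture for towers.** -/
theorem tate_family [IsAlgClosed W.K] (hGal : ∀ i, IsGaloisVar χ (X i))
    (hmid : ∀ i, transcendental W (X i).X ≤ W.gr (X i).X (X i).X.dim)
    (hD : ∀ i n, HomEqNum W (power ops (X i).X n))
    (hF : ∀ i, FullFor χ X Z i) (hops : Run7.h306.TG.HasIntegralOperations W) {S : Set ι}
    {Y : GVar W Γ} (hY : GTower X Z S Y) (hfix : ClFix χ Y) :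
    Run7.h306.TG.TateConjecture χ Y ↔ Run7.h306.TG.TateConjecture χ Z := by
  rw [Run7.h306.TG.tate_iff, Run7.h306.TG.tate_iff]
  refine and_congr ?_ ?_
  · induction hY with
    | base => exact Iff.rfl
    | @step S Y Y' i n hT hi hn hP ih =>
      obtain ⟨υ, h1, h2⟩ := hP
      have hDX : HomEqNum W (X i).X := hD i 0
      obtain ⟨⟨t, ht⟩, hfull⟩ := hF i
      have hone : (1 : W.H (X i).X) ≠ 0 := fun h3 => ht (by rw [← one_mul t, h3, zero_mul])
      have hfull' := hfull (isGalois (hGal i)) Y.X Y.act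
        (fun g h1 h2 => trivAct.1 (hT.trivAct (fun j hj => h1 j fun h0 => hi (h0 ▸ hj)) h2))
        (fun Λ g h1 h2 => eig_tower hT (fun j hj => h1 j fun h0 => hi (h0 ▸ hj)) h2)
      have hfixY : ClFix χ Y := by
        intro j c hc
        obtain ⟨Δ, hΔ, h3⟩ := hfix j (W.map (snd _ Y.X) c)
          (by obtain ⟨z, hz, rfl⟩ := hc; exact ⟨_, ops.pull_mem _ hz, W.cl_pull _ _⟩)
        refine ⟨Δ, hΔ, fun g hg => ?_⟩
        have h4 : W.map (snd (power ops (X i).X n) Y.X) (Y.act g c) =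
            W.map (snd (power ops (X i).X n) Y.X) ((χ g : W.K) ^ j • c) := by
          rw [map_smul, ← h3 g hg]
          exact (h2 g c).symm
        have h5 := Pool.Agent.TH132.A.one_ext_inj (W := W) (X := power ops (X i).X n) (U := Y.X)
          (one_ne_power hone n) (a := Y.act g c - (χ g : W.K) ^ j • c) (by
            rw [Pool.Agent.H281R3.HT.ext, map_one, one_mul, map_sub, h4, sub_self])
        exact sub_eq_zero.1 h5
      rw [← ih hfixY]
      by_cases hB1 : (1 : W.H Y.X) = 0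
      · refine iff_of_true (isRational_zero ?_) (isRational_zero hB1)
        show (1 : W.H ((power ops (X i).X n).prod Y.X)) = 0
        rw [← map_one (W.map (snd _ Y.X)), hB1, map_zero]
      · obtain ⟨s⟩ := exists_SB hDX
        refine ⟨Run7.h306.TG.isRational_factor hops (one_ne_power hone n),
          Run7.h306.TG.isRational_prod hops (hD i n) fun z hz => ?_⟩
        obtain ⟨b, hb⟩ := exists_monoBasis (ops := ops) (⟨(X i).X, 0⟩ : Polarized 𝒱) s.e n
        have h3 : z ∈ Tgt (P := ⟨(X i).X, 0⟩) s n Y.X := by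
          refine Pool.Agent.W552.AS.ind
            (p := fun c => c ∈ Tgt (P := ⟨(X i).X, 0⟩) s n Y.X) ?_ ?_ hz
          · intro j c hc
            obtain ⟨Δ, hΔ, h1'⟩ := hfix j c hc
            exact mem_TgtE (P := ⟨(X i).X, 0⟩) hb hDX (hmid i) (isGalois (hGal i))
              (isPowAct h1 h2) hn hfull' hΔ h1'
          · intro x y hx hy
            exact Submodule.add_mem _ hx hy
        exact lspan_le (tgt_lspan (A := X i) (D := 0) hDX (hmid i) h3)
  · induction hY with
    | base => exact Iff.rfl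
    | @step S Y Y' i n hT hi hn hP ih =>
      obtain ⟨υ, h1, h2⟩ := hP
      have hDX : HomEqNum W (X i).X := hD i 0
      obtain ⟨⟨t, ht⟩, hfull⟩ := hF i
      have hone : (1 : W.H (X i).X) ≠ 0 := fun h3 => ht (by rw [← one_mul t, h3, zero_mul])
      have hfull' := hfull (isGalois (hGal i)) Y.X Y.act
        (fun g h1 h2 => trivAct.1 (hT.trivAct (fun j hj => h1 j fun h0 => hi (h0 ▸ hj)) h2))
        (fun Λ g h1 h2 => eig_tower hT (fun j hj => h1 j fun h0 => hi (h0 ▸ hj)) h2)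
      have hfixY : ClFix χ Y := by
        intro j c hc
        obtain ⟨Δ, hΔ, h3⟩ := hfix j (W.map (snd _ Y.X) c)
          (by obtain ⟨z, hz, rfl⟩ := hc; exact ⟨_, ops.pull_mem _ hz, W.cl_pull _ _⟩)
        refine ⟨Δ, hΔ, fun g hg => ?_⟩
        have h4 : W.map (snd (power ops (X i).X n) Y.X) (Y.act g c) =
            W.map (snd (power ops (X i).X n) Y.X) ((χ g : W.K) ^ j • c) := by
          rw [map_smul, ← h3 g hg]
          exact (h2 g c).symm
        have h5 := Pool.Agent.TH132.A.one_ext_inj (W := W) (X := power ops (X i).X n) (U := Y.X)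
          (one_ne_power hone n) (a := Y.act g c - (χ g : W.K) ^ j • c) (by
            rw [Pool.Agent.H281R3.HT.ext, map_one, one_mul, map_sub, h4, sub_self])
        exact sub_eq_zero.1 h5
      rw [← ih hfixY]
      constructor
      · exact tate_conv (P := ⟨(X i).X, 0⟩) hDX hone (isPowAct h1 h2)
      · exact tate_stepE (P := ⟨(X i).X, 0⟩) hDX (hmid i) (isGalois (hGal i)) (isPowAct h1 h2) hn
          hfull'

/-- **Images.** -/
theorem tate_of_image (hops : Run7.h306.TG.HasIntegralOperations W) {A B : GVar W Γ}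
    (h : IsImageOf χ A B) (hA : Run7.h306.TG.TateConjecture χ A) :
    Run7.h306.TG.TateConjecture χ B := by
  obtain ⟨hB, g, ⟨p, _, ⟨w, hw, rfl⟩, hw1⟩, he⟩ := h
  have hinj : ∀ c, W.push g (W.cl A.X w * W.map g c) = c := by
    intro c
    have h2 := Pool.Agent.V11219.Cls.push_mul_map' (W := W) g (W.cl A.X w) c
    rw [hw1, one_mul] at h2
    exact h2
  have ha : W.cl A.X w ∈ algSpan W A.X :=
    Submodule.subset_span (Set.mem_iUnion.2 ⟨p, w, hw, rfl⟩)
  rw [Run7.h306.TG.tate_iff] at hA ⊢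
  refine ⟨Run7.h306.TG.isRational_of_one (W.map g).toLinearMap
    (fun a ha => Run7.h306.TG.intAll_map hops g ha) (fun a _ h0 => ?_) hA.1, ?_⟩
  · have h1 : W.map g a = 0 := h0
    rw [← hinj a, h1, mul_zero, map_zero]
  · rintro j c hc ⟨Δ, hΔ, h1⟩
    have h2 := hA.2 j (W.map g c) (W.map_mem _ hc) ⟨Δ, hΔ, fun s hs => by
      rw [he, h1 s hs, map_smul]⟩
    refine algSpan_gr ?_ hc
    rw [← hinj c]
    exact algSpan_push g (algSpan_mul ha (Submodule.span_mono (Set.subset_iUnion _ j) h2))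

theorem IsPow.eq {X : GVar W Γ} {n : ℕ} {P : GVar W Γ} (h : IsPow X n P) :
    ∃ ν : Γ →* (W.H (power ops X.X n) ≃ₐ[W.K] W.H (power ops X.X n)),
      P = ⟨power ops X.X n, ν⟩ ∧
      ∀ p : Fin (n + 1), Intertwines (W.map (powerPrj ops X.X n p)) X.act ν := by
  induction h with
  | one =>
    refine ⟨X.act, rfl, fun p g a => ?_⟩
    obtain rfl : p = 0 := Fin.eq_zero p
    have h1 : ∀ a, W.map (powerPrj ops X.X 0 0) a = a := fun a => W.map_id X.X a
    exact (congrArg (X.act g) (h1 a)).trans (h1 (X.act g a)).symm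
  | @mul n P Q _ hQ ih =>
    obtain ⟨ν, rfl, hν⟩ := ih
    obtain ⟨υ, ⟨h1, h2⟩, rfl⟩ := hQ
    refine ⟨υ, rfl, fun p => ?_⟩
    refine Fin.cases ?_ (fun i => ?_) p
    · exact h1
    · intro g a
      have h4 : ∀ a, W.map (powerPrj ops X.X (n + 1) i.succ) a =
          W.map (snd X.X (power ops X.X n)) (W.map (powerPrj ops X.X n i) a) :=
        fun a => W.map_comp _ _ a
      have h5 := h2 g (W.map (powerPrj ops X.X n i) a)
      have h6 : ν g (W.map (powerPrj ops X.X n i) a) = W.map (powerPrj ops X.X n i) (X.act g a) :=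
        hν i g a
      have h7 : υ g (W.map (snd X.X (power ops X.X n)) (W.map (powerPrj ops X.X n i) a)) =
          W.map (snd X.X (power ops X.X n)) (W.map (powerPrj ops X.X n i) (X.act g a)) :=
        h5.trans (congrArg _ h6)
      exact (congrArg (υ g) (h4 a)).trans (h7.trans (h4 (X.act g a)).symm)

theorem Twr.tower {S : Set ι} {T : GVar W Γ} (h : Twr X Z S T) : GTower X Z S T := by
  induction h with
  | base => exact GTower.base
  | @step S T P U i n _ hi hn hP hU ih =>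
    obtain ⟨ν, rfl, hν⟩ := hP.eq
    obtain ⟨υ, ⟨h1, h2⟩, rfl⟩ := hU
    refine GTower.step i n ih hi hn (IsPowProd.mk υ (fun p g a => ?_) h2)
    have h3 : ∀ a, W.map (fst (power ops (X i).X n) T.X ≫ powerPrj ops (X i).X n p) a =
        W.map (fst (power ops (X i).X n) T.X) (W.map (powerPrj ops (X i).X n p) a) :=
      fun a => W.map_comp _ _ a
    rw [h3, h3]
    have h4 := h1 g (W.map (powerPrj ops (X i).X n p) a)
    exact h4.trans (congrArg _ (hν p g a))

theorem fullFor_fin' [IsAlgClosed W.K] {i : ι} (hD : HomEqNum W (X i).X)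
    (hmid : transcendental W (X i).X ≤ W.gr (X i).X (X i).X.dim)
    (hirr : IrredAct (X i).act (transcendental W (X i).X)) (heven : Even (X i).X.dim)
    (hc : FiniteCondition χ (transcendental W (X i).X) (X i).act (eigenvaluesIn X Z i)) :
    FullFor χ X Z i := by
  obtain ⟨hF, Λ, g, hgP, hχ, hfin, α, hα, hiso⟩ := hc
  refine ⟨?_, fun hG Y υ _ hυe => ?_⟩
  · obtain ⟨F, x, hx, y, hy, hx0, -⟩ := hF
    exact ⟨x, hx0⟩
  · exact fullE_fin (P := ⟨(X i).X, 0⟩) hD hmid hG heven
      hirr hχ hfin hα hiso hF (hυe Λ g hgP.2 hgP.1)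

theorem fullFor_odd' [IsAlgClosed W.K] {i : ι} (hDX : HomEqNum W (X i).X)
    (hmid : transcendental W (X i).X ≤ W.gr (X i).X (X i).X.dim)
    (hirr : IrredAct (X i).act (transcendental W (X i).X)) (hodd : Odd (X i).X.dim)
    (hc : LocalCondition χ (transcendental W (X i).X) (X i).act (trivialOn X Z i)
      (eigenvaluesIn X Z i)) : FullFor χ X Z i := by
  rcases hc with ⟨g, hgM, hg⟩ | ⟨hF, Λ, g, hgP, hχ, hg⟩
  · have hg' : CoprimeDefects (transcendental W (X i).X) (X i).act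
        {g | χ g = 1 ∧ g ∈ trivialOn X Z i} g := hg
    refine ⟨exists_ne_of_coprime (P := ⟨(X i).X, 0⟩) hg', fun hG Y υ hυ _ => ?_⟩
    exact fullE_of_odd (P := ⟨(X i).X, 0⟩) hG hodd (fullT_quad (P := ⟨(X i).X, 0⟩) hDX hmid hG hodd
      hirr (M := {g | χ g = 1 ∧ g ∈ trivialOn X Z i}) (fun g hg => hg.1)
      (fun g hg => hυ g hg.2.2 hg.2.1) hgM hg')
  · have hg' : IsolatedAct Λ (transcendental W (X i).X) (X i).act g := isolatedAct_of hg
    refine ⟨?_, fun hG Y υ _ hυe => ?_⟩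
    · obtain ⟨F, x, hx, y, hy, hx0, -⟩ := hF
      exact ⟨x, hx0⟩
    · exact fullE_of_odd (P := ⟨(X i).X, 0⟩) hG hodd (fullT_iso (P := ⟨(X i).X, 0⟩) hDX hmid hG hodd
        hirr hχ hg' hF (hυe Λ g hgP.2 hgP.1))

/-- **The Tate conjecture for families with finite inertia.** -/
theorem FiniteFamily.tate [IsAlgClosed W.K] (h : FiniteFamily χ X Z) (hI : IntegralOps W)
    {S : Set ι} {T : GVar W Γ} (hT : Twr X Z S T) (hG : IsGaloisVar χ T) :
    (TateConj χ T ↔ TateConj χ Z) ∧ (TateConj χ Z → ∀ V, IsImageOf χ T V → TateConj χ V) := by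
  have key : TateConj χ T ↔ TateConj χ Z := by
    rw [tateConj_iff hG, tateConj_iff h.galois_base]
    exact tate_family h.galois (fun i => (h.cond i).1) h.homEqNum
      (fun i => (Nat.even_or_odd (X i).X.dim).elim
        (fun hi => fullFor_fin' (h.homEqNum i 0) (h.cond i).1 (h.cond i).2.1 hi
          ((h.cond i).2.2.1 hi))
        (fun hi => fullFor_odd' (h.homEqNum i 0) (h.cond i).1 (h.cond i).2.1 hi
          ((h.cond i).2.2.2 hi))) hI.toOps hT.tower hG.cl_fix
  refine ⟨key, fun hZ V hV => ?_⟩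
  have h1 := key.2 hZ
  rw [tateConj_iff hG] at h1
  rw [tateConj_iff hV.1]
  exact tate_of_image hI.toOps hV h1

end Run7.h190.EV
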